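import Pool.Agent.Helper626.Rand.Tools

/-!
Conversion between the classes of `Tools` and the computability notions of Mathlib.
-/

namespace Pool.Agent.Helper626.Rand

open Pool.Agent.Helper626

variable {α : Type} [Primcodable α]

theorem enc_computable : ∀ {n : ℕ} {g : Fin n → α → ℕ}, (∀ i, Computable (g i)) →
    Computable (fun a => enc n (fun i => g i a))
  | 0, _, _ => Computable.const 0
  | n + 1, g, hg => by
    have h1 := enc_computable (n := n) (g := fun i => g i.castSucc) (fun i => hg _)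
    exact (Primrec₂.natPair.to_comp).comp h1 (hg (Fin.last n))

theorem repred_of_S1 {n : ℕ} {P : (Fin n → ℕ) → Prop} (hP : S1 true P) {g : Fin n → α → ℕ}
    (hg : ∀ i, Computable (g i)) : REPred (fun a => P (fun i => g i a)) := by
  obtain ⟨R, hR, h⟩ := hP
  have h1 : PrimrecPred (fun c => R (dec (n + 1) c)) :=
    hR.primrec (dec (n + 1)) (dec_primrec (n + 1))
  obtain ⟨inst, h2⟩ := h1
  have h3 : Computable (fun p : α × ℕ => decide (R (dec (n + 1)
      (Nat.pair (enc n (fun i => g i p.1)) p.2)))) := by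
    refine h2.to_comp.comp ?_
    exact (Primrec₂.natPair.to_comp).comp
      ((enc_computable hg).comp Computable.fst) Computable.snd
  have h4 : Partrec (fun a : α => Nat.rfind (fun z => Part.some (decide (R (dec (n + 1)
      (Nat.pair (enc n (fun i => g i a)) z)))))) := Partrec.rfind h3.partrec
  refine (Partrec.dom_re h4).of_eq fun a => ?_
  rw [h]
  constructor
  · intro hd
    rw [Nat.rfind_dom] at hd
    obtain ⟨z, hz, _⟩ := hd
    rw [Part.mem_some_iff] at hz
    have hz' := of_decide_eq_true hz.symm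
    refine ⟨z, ?_⟩
    unfold dec at hz'
    simp only [Nat.unpair_pair] at hz'
    rw [dec_enc] at hz'
    exact hz'
  · rintro ⟨z, hz⟩
    rw [Nat.rfind_dom]
    refine ⟨z, ?_, fun _ => trivial⟩
    rw [Part.mem_some_iff]
    refine (decide_eq_true ?_).symm
    unfold dec
    simp only [Nat.unpair_pair]
    rw [dec_enc]
    exact hz

theorem computable_of_CF {n : ℕ} {F : (Fin n → ℕ) → ℕ} (hF : CF F) {g : Fin n → α → ℕ}
    (hg : ∀ i, Computable (g i)) : Computable (fun a => F (fun i => g i a)) := by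
  obtain ⟨R, hR, h⟩ := hF
  have h1 : PrimrecPred (fun c => R (dec (n + 2) c)) :=
    hR.primrec (dec (n + 2)) (dec_primrec (n + 2))
  obtain ⟨inst, h2⟩ := h1
  have hdec : ∀ a y z, dec (n + 2) (Nat.pair (Nat.pair (enc n (fun i => g i a)) y) z) =
      (Fin.snoc (Fin.snoc (fun i => g i a) y : Fin (n + 1) → ℕ) z : Fin (n + 2) → ℕ) := by
    intro a y z
    unfold dec
    simp only [Nat.unpair_pair]
    unfold dec
    simp only [Nat.unpair_pair]
    rw [dec_enc]
  have h3 : Computable (fun p : α × ℕ => decide (R (dec (n + 2)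
      (Nat.pair (Nat.pair (enc n (fun i => g i p.1)) p.2.unpair.1) p.2.unpair.2)))) := by
    refine h2.to_comp.comp ?_
    refine (Primrec₂.natPair.to_comp).comp ((Primrec₂.natPair.to_comp).comp
      ((enc_computable hg).comp Computable.fst) ?_) ?_
    · exact (Primrec.fst.comp Primrec.unpair).to_comp.comp Computable.snd
    · exact (Primrec.snd.comp Primrec.unpair).to_comp.comp Computable.snd
  have hex : ∀ a : α, ∃ t : ℕ, R (dec (n + 2)
      (Nat.pair (Nat.pair (enc n (fun i => g i a)) t.unpair.1) t.unpair.2)) := by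
    intro a
    obtain ⟨z, hz⟩ := (h (Fin.snoc (fun i => g i a) (F (fun i => g i a)) :
      Fin (n + 1) → ℕ)).1 (by simp)
    refine ⟨Nat.pair (F (fun i => g i a)) z, ?_⟩
    simp only [Nat.unpair_pair]
    rw [hdec]
    exact hz
  have h5 : ∀ (a : α) (t : ℕ), R (dec (n + 2)
      (Nat.pair (Nat.pair (enc n (fun i => g i a)) t.unpair.1) t.unpair.2)) →
      F (fun i => g i a) = t.unpair.1 := by
    intro a t ht
    rw [hdec] at ht
    have h6 := (h (Fin.snoc (fun i => g i a) t.unpair.1 : Fin (n + 1) → ℕ)).2 ⟨_, ht⟩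
    simpa using h6
  have h4 : Partrec (fun a : α => Nat.rfind (fun t => Part.some (decide (R (dec (n + 2)
      (Nat.pair (Nat.pair (enc n (fun i => g i a)) t.unpair.1) t.unpair.2)))))) :=
    Partrec.rfind h3.partrec
  have h6 : Computable (fun a => Nat.find (hex a)) := by
    refine h4.of_eq_tot fun a => ?_
    rw [Nat.mem_rfind]
    refine ⟨?_, fun {m} hm => ?_⟩
    · rw [Part.mem_some_iff]
      exact (decide_eq_true (Nat.find_spec (hex a))).symm
    · rw [Part.mem_some_iff]
      exact (decide_eq_false (Nat.find_min (hex a) hm)).symm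
  refine (Computable.comp (Primrec.fst.comp Primrec.unpair).to_comp h6).of_eq fun a => ?_
  exact (h5 a _ (Nat.find_spec (hex a))).symm

theorem S1_of_repred2 {Q : ℕ → ℕ → Prop} (h : REPred (fun p : ℕ × ℕ => Q p.1 p.2)) :
    S1 true (fun v : Fin 2 → ℕ => Q (v 0) (v 1)) := by
  have h1 : Partrec (fun c : ℕ => (Part.assert (Q c.unpair.1 c.unpair.2)
      fun _ => Part.some ()).map (fun _ => (0 : ℕ))) := by
    refine Partrec.map ?_ ((Computable.const 0).to₂)
    exact Partrec.comp (f := fun p : ℕ × ℕ => Part.assert (Q p.1 p.2) fun _ => Part.some ())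
      h Primrec.unpair.to_comp
  have h2 := S1.of_partrec (e := true) (Partrec.nat_iff.1 h1)
  refine (S1_ex (Q := fun (v : Fin 2 → ℕ) y => y ∈ (Part.assert (Q (Nat.pair (v 0) (v 1)).unpair.1
      (Nat.pair (v 0) (v 1)).unpair.2) fun _ => Part.some ()).map (fun _ => (0 : ℕ))) ?_).of_iff
      fun v => ?_
  · exact S1_sub (P := fun v : Fin 2 → ℕ => v 1 ∈ (Part.assert (Q (v 0).unpair.1
      (v 0).unpair.2) fun _ => Part.some ()).map (fun _ => (0 : ℕ))) h2
      (F := ![fun w => Nat.pair (w 0) (w 1), fun w => w 2]) (by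
        intro i
        fin_cases i
        · exact (CF.var (n := 3) 0).pair (CF.var 1)
        · exact CF.var (n := 3) 2)
  · simp only [Nat.unpair_pair, Part.mem_map_iff, Part.mem_assert_iff]
    constructor
    · intro hq
      exact ⟨0, (), ⟨hq, Part.mem_some _⟩, rfl⟩
    · rintro ⟨_, _, ⟨hq, _⟩, _⟩
      exact hq

theorem CF_of_computable {h : ℕ → ℕ} (hh : Computable h) : CF (fun v : Fin 1 → ℕ => h (v 0)) := by
  have h2 := S1.of_partrec (e := true) (Partrec.nat_iff.1 hh.partrec)
  unfold CF
  refine S1.of_iff h2 fun v => ?_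
  change h (v 0) = v 1 ↔ v 1 ∈ Part.some (h (v 0))
  rw [Part.mem_some_iff]
  exact eq_comm

theorem repred3 {P : ℕ → ℕ → ℕ → Prop} (hP : S1 true (fun v : Fin 3 → ℕ => P (v 0) (v 1) (v 2))) :
    REPred (fun t : ℕ × ℕ × ℕ => P t.1 t.2.1 t.2.2) := by
  have := repred_of_S1 (α := ℕ × ℕ × ℕ) hP
    (g := ![fun t : ℕ × ℕ × ℕ => t.1, fun t => t.2.1, fun t => t.2.2]) (by
      intro i
      fin_cases i
      · exact Computable.fst
      · exact Computable.fst.comp Computable.snd
      · exact Computable.snd.comp Computable.snd)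
  exact this

theorem repred2 {P : ℕ → ℕ → Prop} (hP : S1 true (fun v : Fin 2 → ℕ => P (v 0) (v 1))) :
    REPred (fun t : ℕ × ℕ => P t.1 t.2) := by
  have := repred_of_S1 (α := ℕ × ℕ) hP
    (g := ![fun t : ℕ × ℕ => t.1, fun t => t.2]) (by
      intro i
      fin_cases i
      · exact Computable.fst
      · exact Computable.snd)
  exact this

end Pool.Agent.Helper626.Rand
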