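import Pool.Agent.Helper626.Rand.Defs
import Pool.Agent.Helper626.Rand.Conv

/-!
Basic facts on prefixes, dyadic intervals and randomness.
-/

namespace Pool.Agent.Helper626.Rand

open Pool.Agent.Helper626 MeasureTheory

/-- the integer formed by the first `n` digits -/
noncomputable def pre (x : ℝ) (n : ℕ) : ℕ := ⌊2 ^ n * x⌋₊

theorem pre_div (x : ℝ) (n d : ℕ) : pre x n = pre x (n + d) / 2 ^ d := by
  unfold pre
  have h : (2 : ℝ) ^ n * x = (2 ^ (n + d) * x) / ((2 ^ d : ℕ) : ℝ) := by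
    push_cast
    rw [pow_add]
    field_simp
  rw [h, Nat.floor_div_natCast]

theorem pre_half (x : ℝ) (n : ℕ) : pre x n = pre x (n + 1) / 2 := by
  have := pre_div x n 1
  simpa using this

theorem bit_eq (x : ℝ) (n : ℕ) : bit x n = decide (pre x (n + 1) % 2 = 1) := rfl

theorem pre_succ (x : ℝ) (n : ℕ) : pre x (n + 1) = 2 * pre x n + (if bit x n = true then 1 else 0) := by
  rw [bit_eq, pre_half x n]
  have := Nat.div_add_mod (pre x (n + 1)) 2
  rcases Nat.mod_two_eq_zero_or_one (pre x (n + 1)) with h | h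
  · simp [h]
    omega
  · simp [h]
    omega

theorem pre_zero {x : ℝ} (h1 : x < 1) : pre x 0 = 0 := by
  unfold pre
  simp only [pow_zero, one_mul]
  exact Nat.floor_eq_zero.2 h1

theorem pre_lt {x : ℝ} (h1 : x < 1) (n : ℕ) : pre x n < 2 ^ n := by
  by_cases h0 : 0 ≤ x
  · unfold pre
    rw [Nat.floor_lt (by positivity)]
    push_cast
    have : (0 : ℝ) < 2 ^ n := by positivity
    nlinarith
  · push Not at h0
    unfold pre
    have : (2 : ℝ) ^ n * x ≤ 0 := by
      have : (0 : ℝ) < 2 ^ n := by positivity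
      nlinarith
    rw [Nat.floor_of_nonpos this]
    positivity

theorem bit_pre {x : ℝ} {m p : ℕ} (h : p < m) :
    bit x p = decide (pre x m / 2 ^ (m - 1 - p) % 2 = 1) := by
  rw [bit_eq, pre_div x (p + 1) (m - 1 - p)]
  have : p + 1 + (m - 1 - p) = m := by omega
  rw [this]

theorem mem_dyadic_iff {x : ℝ} (hx : 0 ≤ x) (n a : ℕ) : x ∈ dyadic n a ↔ pre x n = a := by
  unfold dyadic pre
  have h2 : (0 : ℝ) < 2 ^ n := by positivity
  rw [Nat.floor_eq_iff (by positivity), Set.mem_Ico, div_le_iff₀ h2, lt_div_iff₀ h2]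
  constructor
  · rintro ⟨h3, h4⟩
    constructor <;> linarith
  · rintro ⟨h3, h4⟩
    constructor <;> linarith

theorem dyadic_nonneg {x : ℝ} {n a : ℕ} (h : x ∈ dyadic n a) : 0 ≤ x := by
  unfold dyadic at h
  have h1 : (0 : ℝ) ≤ (a : ℝ) / 2 ^ n := by positivity
  exact h1.trans h.1

theorem volume_dyadic (n a : ℕ) : volume (dyadic n a) = ENNReal.ofReal ((1 / 2) ^ n) := by
  unfold dyadic
  rw [Real.volume_Ico]
  congr 1
  rw [one_div, inv_pow]
  field_simp
  ring

theorem measurableSet_dyadic (n a : ℕ) : MeasurableSet (dyadic n a) := measurableSet_Ico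

/-- sets of reals in `[0,1)` given by a condition on the first `n` digits -/
def clo (n : ℕ) (P : ℕ → Prop) : Set ℝ := {x | 0 ≤ x ∧ x < 1 ∧ P (pre x n)}

theorem clo_eq (n : ℕ) (P : ℕ → Prop) [DecidablePred P] :
    clo n P = ⋃ a ∈ (Finset.range (2 ^ n)).filter P, dyadic n a := by
  ext x
  simp only [clo, Set.mem_setOf_eq, Finset.mem_filter, Finset.mem_range, Set.mem_iUnion,
    exists_prop]
  constructor
  · rintro ⟨h0, h1, h2⟩
    exact ⟨pre x n, ⟨pre_lt h1 n, h2⟩, (mem_dyadic_iff h0 n _).2 rfl⟩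
  · rintro ⟨a, ⟨ha, hP⟩, hx⟩
    have h0 := dyadic_nonneg hx
    have h3 := (mem_dyadic_iff h0 n a).1 hx
    refine ⟨h0, ?_, h3 ▸ hP⟩
    unfold dyadic at hx
    refine hx.2.trans_le ?_
    rw [div_le_one (by positivity)]
    exact_mod_cast ha

theorem volume_clo (n : ℕ) (P : ℕ → Prop) [DecidablePred P] :
    volume (clo n P) = ENNReal.ofReal (Nat.count P (2 ^ n) * (1 / 2) ^ n) := by
  rw [clo_eq, measure_biUnion_finset]
  · simp only [volume_dyadic, Finset.sum_const, nsmul_eq_mul]
    rw [ENNReal.ofReal_mul (by positivity), ← Nat.count_eq_card_filter_range]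
    congr 1
    rw [ENNReal.ofReal_natCast]
  · intro a _ b _ hab
    refine Set.disjoint_left.2 fun x hx hx' => hab ?_
    have h0 := dyadic_nonneg hx
    rw [mem_dyadic_iff h0] at hx hx'
    omega
  · intro a _
    exact measurableSet_dyadic n a

theorem measurableSet_clo (n : ℕ) (P : ℕ → Prop) : MeasurableSet (clo n P) := by
  classical
  rw [clo_eq]
  exact Finset.measurableSet_biUnion _ fun a _ => measurableSet_dyadic n a

theorem measurableSet_comp (W : ℕ → ℕ → ℕ → Prop) (k : ℕ) : MeasurableSet (comp W k) := by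
  have : comp W k = ⋃ (n : ℕ) (a : ℕ) (_ : W k n a), dyadic n a := by
    ext x
    simp [comp]
  rw [this]
  exact MeasurableSet.iUnion fun n => MeasurableSet.iUnion fun a => MeasurableSet.iUnion fun _ =>
    measurableSet_dyadic n a

/-- random reals are not dyadic rationals -/
theorem MLRandom.ne_dyadic {x : ℝ} (h : MLRandom x) (n a : ℕ) : x ≠ (a : ℝ) / 2 ^ n := by
  rintro rfl
  have htest : IsMLTest (fun k m b => m = n + k ∧ b = a * 2 ^ k) := by
    constructor
    · refine repred3 (P := fun k m b => m = n + k ∧ b = a * 2 ^ k) ?_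
      exact ((D1.eq (CF.var 1) ((CF.const n).add (CF.var 0))).and
        (D1.eq (CF.var 2) ((CF.const a).mul ((CF.const 2).pow (CF.var 0))))).pos
    · intro k
      have h1 : comp (fun k m b => m = n + k ∧ b = a * 2 ^ k) k = dyadic (n + k) (a * 2 ^ k) := by
        ext x
        simp [comp]
      rw [h1, volume_dyadic]
      refine ENNReal.ofReal_le_ofReal ?_
      rw [pow_add]
      have h2 : ((1 : ℝ) / 2) ^ n ≤ 1 := pow_le_one₀ (by norm_num) (by norm_num)
      have h3 : (0 : ℝ) < (1 / 2) ^ k := by positivity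
      nlinarith
  obtain ⟨k, hk⟩ := h _ htest
  apply hk
  refine ⟨n + k, a * 2 ^ k, ⟨rfl, rfl⟩, ?_⟩
  rw [mem_dyadic_iff (by positivity)]
  unfold pre
  have : (2 : ℝ) ^ (n + k) * ((a : ℝ) / 2 ^ n) = ((a * 2 ^ k : ℕ) : ℝ) := by
    push_cast
    rw [pow_add]
    field_simp
  rw [this, Nat.floor_natCast]

end Pool.Agent.Helper626.Rand
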