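import Mathlib.Computability.RE
import Mathlib.MeasureTheory.Measure.Lebesgue.Basic

/-!
Definitions: binary digits, Martin-Löf randomness, left-c.e. reals, truth-table reducibility.
-/

namespace Pool.Agent.Helper626.Rand

open MeasureTheory

/-- The binary digit number `n` (`n = 0, 1, 2, …`) of the real `x` after the binary point. -/
noncomputable def bit (x : ℝ) (n : ℕ) : Bool := decide (⌊2 ^ (n + 1) * x⌋₊ % 2 = 1)

/-- The dyadic interval `[a/2^n, (a+1)/2^n)`. -/
def dyadic (n a : ℕ) : Set ℝ := Set.Ico ((a : ℝ) / 2 ^ n) (((a : ℝ) + 1) / 2 ^ n)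

/-- The `k`-th component of `W`: the union of all dyadic intervals `[a/2^n, (a+1)/2^n)` with
`W k n a`. -/
def comp (W : ℕ → ℕ → ℕ → Prop) (k : ℕ) : Set ℝ := {x | ∃ n a, W k n a ∧ x ∈ dyadic n a}

/-- `W` is a Martin-Löf test: its components are uniformly c.e. unions of dyadic intervals and the
`k`-th component has Lebesgue measure at most `2^(-k)`. -/
def IsMLTest (W : ℕ → ℕ → ℕ → Prop) : Prop :=
  REPred (fun t : ℕ × ℕ × ℕ => W t.1 t.2.1 t.2.2) ∧
    ∀ k, volume (comp W k) ≤ ENNReal.ofReal ((1 / 2) ^ k)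

/-- `x` is Martin-Löf random: no Martin-Löf test has `x` in all its components. -/
def MLRandom (x : ℝ) : Prop := ∀ W, IsMLTest W → ∃ k, x ∉ comp W k

/-- `x ≥ 0` is left-c.e.: the set of nonnegative rationals `a / (b + 1)` below `x` is c.e. -/
def LeftCE (x : ℝ) : Prop := REPred (fun p : ℕ × ℕ => (p.1 : ℝ) / ((p.2 : ℝ) + 1) < x)

/-- `x` is an `Ω`-number: a Martin-Löf random left-c.e. real in `[0, 1]`. -/
def IsOmega (x : ℝ) : Prop := 0 ≤ x ∧ x ≤ 1 ∧ MLRandom x ∧ LeftCE x

/-- Truth-table reducibility `x ≤_tt y` of the binary expansions: there are a computable function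
`P` giving for each `n` a finite list `P n` of positions and a total computable `f` such that the
`n`-th digit of `x` is the value of the Boolean function `f (n, ·)` at the digits of `y` at the
positions in the list `P n`. -/
def TTle (x y : ℝ) : Prop :=
  ∃ (P : ℕ → List ℕ) (f : ℕ × List Bool → Bool), Computable P ∧ Computable f ∧
    ∀ n, bit x n = f (n, (P n).map (bit y))

end Pool.Agent.Helper626.Rand
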