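import Pool.Agent.Helper626.Rand.SW

/-!
Existence of `Ω`-numbers.
-/

namespace Pool.Agent.Helper626.Rand

open Pool.Agent.Helper626 MeasureTheory Nat.Partrec

/-- stage `s` of the `e`-th c.e. set -/
def St (e s t : ℕ) : Prop := (Code.evaln s (Denumerable.ofNat Code e) t).isSome = true

theorem St_D1 : D1 (fun v : Fin 3 → ℕ => St (v 0) (v 1) (v 2)) := by
  have h1 : Primrec (fun q : ℕ => Code.evaln q.unpair.2.unpair.1
      (Denumerable.ofNat Code q.unpair.1) q.unpair.2.unpair.2) := by
    have hf : Primrec (fun q : ℕ => q.unpair.1) := Primrec.fst.comp Primrec.unpair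
    have hs : Primrec (fun q : ℕ => q.unpair.2) := Primrec.snd.comp Primrec.unpair
    exact Code.primrec_evaln.comp (((hf.comp hs).pair ((Primrec.ofNat Code).comp hf)).pair
      (hs.comp hs))
  have h2 : Primrec (fun q : ℕ => bif (Code.evaln q.unpair.2.unpair.1
      (Denumerable.ofNat Code q.unpair.1) q.unpair.2.unpair.2).isSome then 1 else 0) :=
    Primrec.cond (Primrec.option_isSome.comp h1) (Primrec.const 1) (Primrec.const 0)
  have h3 := CF.comp1 (CF_of_computable h2.to_comp)
    ((CF.var (n := 3) 0).pair ((CF.var 1).pair (CF.var 2)))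
  refine (D1.eq h3 (CF.const 1)).of_iff fun v => ?_
  simp only [Nat.unpair_pair, St]
  cases (Code.evaln (v 1) (Denumerable.ofNat Code (v 0)) (v 2)).isSome <;> simp

theorem St_mono {e s s' t : ℕ} (h : s ≤ s') (hs : St e s t) : St e s' t := by
  unfold St at *
  rw [Option.isSome_iff_exists] at *
  obtain ⟨x, hx⟩ := hs
  exact ⟨x, Code.evaln_mono h hx⟩

theorem exists_index {W : ℕ → ℕ → ℕ → Prop} (h : REPred (fun t : ℕ × ℕ × ℕ => W t.1 t.2.1 t.2.2)) :
    ∃ e, ∀ k n a, W k n a ↔ ∃ s, St e s (Nat.pair k (Nat.pair n a)) := by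
  obtain ⟨c, hc⟩ := Code.exists_code.1 h
  refine ⟨Encodable.encode c, fun k n a => ?_⟩
  have h1 : (c.eval (Nat.pair k (Nat.pair n a))).Dom ↔ W k n a := by
    rw [hc]
    have h2 : (Encodable.decode (Nat.pair k (Nat.pair n a)) : Option (ℕ × ℕ × ℕ)) =
        some (k, n, a) := by
      have : Nat.pair k (Nat.pair n a) = Encodable.encode (k, n, a) := rfl
      rw [this, Encodable.encodek]
    dsimp only
    rw [h2]
    simp [Part.assert]
  rw [← h1]
  unfold St
  rw [Denumerable.ofNat_encode]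
  constructor
  · intro hd
    obtain ⟨s, hs⟩ := Code.evaln_complete.1 (Part.get_mem hd)
    exact ⟨s, Option.isSome_iff_exists.2 ⟨_, hs⟩⟩
  · rintro ⟨s, hs⟩
    obtain ⟨x, hx⟩ := Option.isSome_iff_exists.1 hs
    exact Part.dom_iff_mem.2 ⟨x, Code.evaln_complete.2 ⟨s, hx⟩⟩

/-- covered at stage `s` -/
def cov (e k s b : ℕ) : Prop :=
  ∃ n, n < s + 1 ∧ St e s (Nat.pair k (Nat.pair n (b / 2 ^ (s - n))))

theorem div_pow_pow (b d s n : ℕ) (h : n ≤ s) : b / 2 ^ d / 2 ^ (s - n) = b / 2 ^ (s + d - n) := by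
  rw [Nat.div_div_eq_div_mul, ← pow_add]
  congr 2
  omega

theorem cov_mono {e k s d b : ℕ} (h : cov e k s (b / 2 ^ d)) : cov e k (s + d) b := by
  obtain ⟨n, hn, h1⟩ := h
  rw [div_pow_pow _ _ _ _ (by omega)] at h1
  exact ⟨n, by omega, St_mono (by omega) h1⟩

open Classical in
/-- truncated enumeration -/
def Tr (e k s b : ℕ) : Prop := cov e k s b ∧ Nat.count (cov e k s) (2 ^ s) * 2 ^ k ≤ 2 ^ s

theorem cov_D1 {n : ℕ} {F G H K : (Fin n → ℕ) → ℕ} (hF : CF F) (hG : CF G) (hH : CF H)
    (hK : CF K) : D1 (fun v => cov (F v) (G v) (H v) (K v)) := by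
  refine D1.bex (hH.add (CF.const 1)) ?_
  exact D1.rel3 St_D1 hF.init hH.init (hG.init.pair (CF.last.pair
    (hK.init.div ((CF.const 2).pow (hH.init.sub CF.last)))))

theorem Tr_D1 {n : ℕ} {F G H K : (Fin n → ℕ) → ℕ} (hF : CF F) (hG : CF G) (hH : CF H)
    (hK : CF K) : D1 (fun v => Tr (F v) (G v) (H v) (K v)) := by
  classical
  refine (cov_D1 hF hG hH hK).and (D1.le (CF.mul ?_ ((CF.const 2).pow hG)) ((CF.const 2).pow hH))
  refine CF.count (P := fun v b => cov (F v) (G v) (H v) b) ?_ ((CF.const 2).pow hH)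
  exact cov_D1 hF.init hG.init hH.init CF.last

/-- sets covered at stage `s` -/
def BB (e k s : ℕ) : Set ℝ := clo s (cov e k s)

theorem BB_mono (e k : ℕ) : Monotone (BB e k) := by
  refine monotone_nat_of_le_succ fun s => ?_
  rintro z ⟨h0, h1, h2⟩
  refine ⟨h0, h1, ?_⟩
  refine cov_mono (s := s) (d := 1) ?_
  have := pre_div z s 1
  rw [← this]
  exact h2

theorem volume_Tr (e k : ℕ) :
    volume (comp (fun _ s b => b < 2 ^ s ∧ Tr e k s b) 0) ≤ ENNReal.ofReal ((1 / 2) ^ k) := by
  classical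
  have h1 : comp (fun _ s b => b < 2 ^ s ∧ Tr e k s b) 0 =
      ⋃ s : {s : ℕ // Nat.count (cov e k s) (2 ^ s) * 2 ^ k ≤ 2 ^ s}, BB e k s := by
    ext z
    simp only [comp, Set.mem_ofPred_eq, Set.mem_iUnion, Subtype.exists, exists_prop, BB, clo]
    constructor
    · rintro ⟨s, b, ⟨hb, hc, hm⟩, hz⟩
      have h0 := dyadic_nonneg hz
      have h1 := (mem_dyadic_iff h0 _ _).1 hz
      refine ⟨s, hm, h0, ?_, by rw [h1]; exact hc⟩
      unfold dyadic at hz
      refine hz.2.trans_le ?_
      rw [div_le_one (by positivity)]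
      exact_mod_cast hb
    · rintro ⟨s, hm, h0, h1, hc⟩
      exact ⟨s, pre z s, ⟨pre_lt h1 s, hc, hm⟩, (mem_dyadic_iff h0 _ _).2 rfl⟩
  rw [h1, Directed.measure_iUnion]
  · refine iSup_le fun s => ?_
    unfold BB
    rw [volume_clo]
    refine ENNReal.ofReal_le_ofReal ?_
    have h2 := s.2
    have h3 : (Nat.count (cov e k s) (2 ^ (s : ℕ)) : ℝ) * 2 ^ k ≤ 2 ^ (s : ℕ) := by
      exact_mod_cast h2
    have h4 := half_pow_mul s
    have h5 := half_pow_mul k
    have h6 : (0 : ℝ) < (1 / 2) ^ (s : ℕ) := by positivity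
    have h7 : (0 : ℝ) < (1 / 2) ^ k := by positivity
    generalize ((Nat.count (cov e k s) (2 ^ (s : ℕ)) : ℕ) : ℝ) = A at h3 ⊢
    generalize ((1 : ℝ) / 2) ^ (s : ℕ) = B at h4 h6 ⊢
    generalize (2 : ℝ) ^ (s : ℕ) = C at h3 h4
    generalize ((1 : ℝ) / 2) ^ k = D at h5 h7 ⊢
    generalize (2 : ℝ) ^ k = E at h3 h5
    calc A * B = (A * E) * (B * D) := by
          calc A * B = A * B * (E * D) := by rw [h5, mul_one]
            _ = _ := by ring
      _ ≤ C * (B * D) := mul_le_mul_of_nonneg_right h3 (by positivity)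
      _ = (C * B) * D := by ring
      _ = D := by rw [h4, one_mul]
  · intro s t
    rcases le_total (s : ℕ) t with h | h
    · exact ⟨t, BB_mono e k h, subset_rfl⟩
    · exact ⟨s, subset_rfl, BB_mono e k h⟩

/-- the universal c.e. set, with a neighbourhood of each dyadic rational -/
def UU (e n a : ℕ) : Prop :=
  (a < 2 ^ n ∧ Tr e (e + 3) n a) ∨ ∃ m b, e = Nat.pair m b ∧ n = m + e + 5 ∧
    (a = b * 2 ^ (e + 5) ∨ a + 1 = b * 2 ^ (e + 5))

theorem UU_S1 {n : ℕ} {F G H : (Fin n → ℕ) → ℕ} (hF : CF F) (hG : CF G) (hH : CF H) :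
    S1 true (fun v => UU (F v) (G v) (H v)) := by
  refine S1.or ((D1.lt hH ((CF.const 2).pow hG)).and (Tr_D1 hF (hF.add (CF.const 3)) hG hH)).pos ?_
  refine S1_ex (S1_ex ?_)
  refine (D1.and (D1.eq hF.init.init (CF.last.init.pair CF.last)) (D1.and (D1.eq hG.init.init
    ((CF.last.init.add hF.init.init).add (CF.const 5))) (D1.or (D1.eq hH.init.init
    (CF.last.mul ((CF.const 2).pow (hF.init.init.add (CF.const 5)))))
    (D1.eq (hH.init.init.add (CF.const 1))
    (CF.last.mul ((CF.const 2).pow (hF.init.init.add (CF.const 5)))))))).pos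

theorem volume_UU (e : ℕ) :
    volume (comp UU e) ≤ ENNReal.ofReal ((1 / 2) ^ (e + 2)) := by
  have h1 : comp UU e ⊆ comp (fun _ s b => b < 2 ^ s ∧ Tr e (e + 3) s b) 0 ∪
      (dyadic (e.unpair.1 + e + 5) (e.unpair.2 * 2 ^ (e + 5)) ∪
        dyadic (e.unpair.1 + e + 5) (e.unpair.2 * 2 ^ (e + 5) - 1)) := by
    rintro z ⟨n, a, h | ⟨m, b, h2, h3, h4⟩, hz⟩
    · exact Or.inl ⟨n, a, h, hz⟩
    · right
      have h5 : e.unpair = (m, b) := by rw [h2, Nat.unpair_pair]
      rw [h5]
      rcases h4 with h4 | h4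
      · left
        rw [h3, h4] at hz
        exact hz
      · right
        have : a = b * 2 ^ (e + 5) - 1 := by omega
        rw [h3, this] at hz
        exact hz
  refine (measure_mono h1).trans ((measure_union_le _ _).trans ?_)
  have h2 := volume_Tr e (e + 3)
  have h3 : volume (dyadic (e.unpair.1 + e + 5) (e.unpair.2 * 2 ^ (e + 5)) ∪
      dyadic (e.unpair.1 + e + 5) (e.unpair.2 * 2 ^ (e + 5) - 1)) ≤
      ENNReal.ofReal ((1 / 2) ^ (e + 3)) := by
    refine (measure_union_le _ _).trans ?_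
    rw [volume_dyadic, volume_dyadic, ← ENNReal.ofReal_add (by positivity) (by positivity)]
    refine ENNReal.ofReal_le_ofReal ?_
    have h4 : ((1 : ℝ) / 2) ^ (e.unpair.1 + e + 5) ≤ (1 / 2) ^ (e + 3 + 1) :=
      pow_le_pow_of_le_one (by norm_num) (by norm_num) (by omega)
    rw [pow_succ (1 / 2 : ℝ) (e + 3)] at h4
    linarith
  refine (add_le_add h2 h3).trans ?_
  rw [← ENNReal.ofReal_add (by positivity) (by positivity)]
  refine ENNReal.ofReal_le_ofReal ?_
  rw [show e + 3 = e + 2 + 1 by omega, pow_succ]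
  linarith

/-- the union -/
def OO : Set ℝ := ⋃ e, comp UU e

theorem volume_OO : volume OO ≤ ENNReal.ofReal (1 / 2) := by
  refine (measure_iUnion_le _).trans ((ENNReal.tsum_le_tsum volume_UU).trans ?_)
  rw [← ENNReal.ofReal_tsum_of_nonneg (fun _ => by positivity)]
  · refine ENNReal.ofReal_le_ofReal ?_
    have h1 : ∀ e : ℕ, ((1 : ℝ) / 2) ^ (e + 2) = (1 / 4) * (1 / 2) ^ e := by
      intro e
      rw [pow_add]
      ring
    simp only [h1]
    rw [tsum_mul_left, tsum_geometric_two]
    norm_num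
  · exact (summable_nat_add_iff 2).2 summable_geometric_two

/-- finite coverage -/
def fin' (N b : ℕ) : Prop := ∃ e n, n < N + 1 ∧ UU e n (b / 2 ^ (N - n))

theorem fin'_mono {N d b : ℕ} (h : fin' N (b / 2 ^ d)) : fin' (N + d) b := by
  obtain ⟨e, n, hn, h⟩ := h
  rw [div_pow_pow _ _ _ _ (by omega)] at h
  exact ⟨e, n, by omega, h⟩

theorem fin'_pre_mono {N N' : ℕ} (hN : N ≤ N') {z : ℝ} (h : fin' N (pre z N)) :
    fin' N' (pre z N') := by
  obtain ⟨d, rfl⟩ := Nat.exists_eq_add_of_le hN
  refine fin'_mono ?_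
  rw [← pre_div]
  exact h

theorem exists_omega : ∃ x : ℝ, IsOmega x := by
  set C : Set ℝ := {z | 0 ≤ z ∧ z ∉ OO} with hC
  have hne : ∃ z ∈ C, z < 1 := by
    by_contra hcon
    push Not at hcon
    have h1 : Set.Ico (0 : ℝ) 1 ⊆ OO := by
      intro z hz
      by_contra h
      have := hcon z ⟨hz.1, h⟩
      linarith [hz.2]
    have h2 := (measure_mono h1).trans volume_OO
    rw [Real.volume_Ico] at h2
    have h3 := (ENNReal.ofReal_le_ofReal_iff (by norm_num)).1 h2
    norm_num at h3
  obtain ⟨z0, hz0, hz1⟩ := hne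
  have hbdd : BddBelow C := ⟨0, fun z hz => hz.1⟩
  set x := sInf C with hx
  have hx0 : 0 ≤ x := le_csInf ⟨z0, hz0⟩ fun z hz => hz.1
  have hx1 : x < 1 := (csInf_le hbdd hz0).trans_lt hz1
  have hxO : x ∉ OO := by
    intro h
    obtain ⟨e, n, a, hU, hxd⟩ := Set.mem_iUnion.1 h
    unfold dyadic at hxd
    obtain ⟨z, hz, hzlt⟩ := exists_lt_of_csInf_lt ⟨z0, hz0⟩ hxd.2
    have h1 : x ≤ z := csInf_le hbdd hz
    exact hz.2 (Set.mem_iUnion.2 ⟨e, n, a, hU, hxd.1.trans h1, hzlt⟩)
  refine ⟨x, hx0, hx1.le, ?_, ?_⟩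
  · intro W hW
    obtain ⟨e, he⟩ := exists_index hW.1
    refine ⟨e + 3, fun hcon => hxO (Set.mem_iUnion.2 ⟨e, ?_⟩)⟩
    rw [mem_comp_iff] at hcon
    obtain ⟨_, n, hn⟩ := hcon
    rw [he] at hn
    obtain ⟨s, hs⟩ := hn
    rw [mem_comp_iff]
    refine ⟨hx0, n + s, Or.inl ⟨pre_lt hx1 _, ?_, ?_⟩⟩
    · refine ⟨n, by omega, ?_⟩
      rw [pre_div' (by omega)]
      exact St_mono (by omega) hs
    · classical
      have h1 : clo (n + s) (cov e (e + 3) (n + s)) ⊆ comp W (e + 3) := by
        rintro z ⟨h0, h1, m, hm, h2⟩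
        rw [pre_div' (by omega)] at h2
        rw [mem_comp_iff]
        exact ⟨h0, m, (he _ _ _).2 ⟨_, h2⟩⟩
      have h2 := (measure_mono h1).trans (hW.2 (e + 3))
      rw [volume_clo, ENNReal.ofReal_le_ofReal_iff (by positivity)] at h2
      have h3 := half_pow_mul (n + s)
      have h4 := half_pow_mul (e + 3)
      have h5 : (0 : ℝ) < 2 ^ (n + s) := by positivity
      have h6 : (0 : ℝ) < 2 ^ (e + 3) := by positivity
      have h7 : (Nat.count (cov e (e + 3) (n + s)) (2 ^ (n + s)) : ℝ) * 2 ^ (e + 3) ≤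
          2 ^ (n + s) := by
        generalize ((Nat.count (cov e (e + 3) (n + s)) (2 ^ (n + s)) : ℕ) : ℝ) = A at h2 ⊢
        generalize ((1 : ℝ) / 2) ^ (n + s) = B at h2 h3
        generalize (2 : ℝ) ^ (n + s) = C at h3 h5 ⊢
        generalize ((1 : ℝ) / 2) ^ (e + 3) = D at h2 h4
        generalize (2 : ℝ) ^ (e + 3) = E at h4 h6 ⊢
        calc A * E = (A * B) * (C * E) := by
              calc A * E = A * E * (C * B) := by rw [h3, mul_one]
                _ = _ := by ring
          _ ≤ D * (C * E) := mul_le_mul_of_nonneg_right h2 (by positivity)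
          _ = (E * D) * C := by ring
          _ = C := by rw [h4, one_mul]
      exact_mod_cast h7
  · have hfl : ∀ p q N : ℕ, pre ((p : ℝ) / ((q : ℝ) + 1)) N = 2 ^ N * p / (q + 1) := by
      intro p q N
      unfold pre
      have h1 : (2 : ℝ) ^ N * ((p : ℝ) / ((q : ℝ) + 1)) = ((2 ^ N * p : ℕ) : ℝ) / ((q + 1 : ℕ) : ℝ) := by
        push_cast
        ring
      rw [h1, Nat.floor_div_eq_div]
    have key : ∀ p q : ℕ, (p : ℝ) / ((q : ℝ) + 1) < x ↔
        ∃ N, ∀ b, b < 2 ^ N * p / (q + 1) + 1 → fin' N b := by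
      intro p q
      set z : ℝ := (p : ℝ) / ((q : ℝ) + 1) with hz
      have hz0 : 0 ≤ z := by positivity
      constructor
      · intro hzx
        have h1 : ∃ N, ∀ r ∈ Set.Icc 0 z, 0 ≤ r → fin' N (pre r N) := by
          refine IsCompact.induction_on (p := fun S : Set ℝ =>
            ∃ N, ∀ r ∈ S, 0 ≤ r → fin' N (pre r N)) isCompact_Icc ?_ ?_ ?_ ?_
          · exact ⟨0, fun r hr => hr.elim⟩
          · rintro s t hst ⟨N, hN⟩
            exact ⟨N, fun r hr => hN r (hst hr)⟩
          · rintro s t ⟨N, hN⟩ ⟨M, hM⟩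
            refine ⟨N + M, ?_⟩
            rintro r (hr | hr) hr0
            · exact fin'_pre_mono (by omega) (hN r hr hr0)
            · exact fin'_pre_mono (by omega) (hM r hr hr0)
          · intro r hr
            have hrO : r ∈ OO := by
              by_contra h
              have : x ≤ r := csInf_le hbdd ⟨hr.1, h⟩
              linarith [hr.2]
            obtain ⟨e, n, a, hU, hrd⟩ := Set.mem_iUnion.1 hrO
            unfold dyadic at hrd
            rcases hrd.1.lt_or_eq with h2 | h2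
            · refine ⟨Set.Ioo ((a : ℝ) / 2 ^ n) (((a : ℝ) + 1) / 2 ^ n),
                mem_nhdsWithin_of_mem_nhds (Ioo_mem_nhds h2 hrd.2), n, ?_⟩
              intro r' hr' hr'0
              have h3 : pre r' n = a := (mem_dyadic_iff hr'0 n a).1 ⟨hr'.1.le, hr'.2⟩
              refine ⟨e, n, by omega, ?_⟩
              rw [h3, Nat.sub_self, pow_zero, Nat.div_one]
              exact hU
            · set j := Nat.pair n a with hj
              set L := n + j + 5 with hL
              have h3 : (a : ℝ) / 2 ^ n = ((a * 2 ^ (j + 5) : ℕ) : ℝ) / 2 ^ L := by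
                push_cast
                rw [hL, show n + j + 5 = n + (j + 5) by ring, pow_add 2 n (j + 5)]
                have h4 : (2 : ℝ) ^ (j + 5) ≠ 0 := by positivity
                rw [mul_div_mul_right _ _ h4]
              have hL0 : (0 : ℝ) < 2 ^ L := by positivity
              refine ⟨Set.Ioo ((((a * 2 ^ (j + 5) : ℕ) : ℝ) - 1) / 2 ^ L)
                ((((a * 2 ^ (j + 5) : ℕ) : ℝ) + 1) / 2 ^ L),
                mem_nhdsWithin_of_mem_nhds (Ioo_mem_nhds ?_ ?_), L, ?_⟩
              · rw [← h2, h3]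
                exact div_lt_div_of_pos_right (by linarith) hL0
              · rw [← h2, h3]
                exact div_lt_div_of_pos_right (by linarith) hL0
              · intro r' hr' hr'0
                refine ⟨j, L, by omega, ?_⟩
                rw [Nat.sub_self, pow_zero, Nat.div_one]
                refine Or.inr ⟨n, a, hj, hL, ?_⟩
                rcases le_or_gt (((a * 2 ^ (j + 5) : ℕ) : ℝ) / 2 ^ L) r' with h4 | h4
                · left
                  exact (mem_dyadic_iff hr'0 L _).1 ⟨h4, hr'.2⟩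
                · right
                  have h5 : 0 < a * 2 ^ (j + 5) := by
                    rcases Nat.eq_zero_or_pos (a * 2 ^ (j + 5)) with h6 | h6
                    · rw [h6] at h4
                      simp at h4
                      linarith
                    · exact h6
                  have h6 : pre r' L = a * 2 ^ (j + 5) - 1 := by
                    refine (mem_dyadic_iff hr'0 L _).1 ?_
                    unfold dyadic
                    rw [Nat.cast_sub h5, Nat.cast_one, sub_add_cancel]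
                    exact ⟨hr'.1.le, h4⟩
                  omega
        obtain ⟨N, hN⟩ := h1
        refine ⟨N, fun b hb => ?_⟩
        have h2 : (0 : ℝ) < 2 ^ N := by positivity
        have h3 : pre ((b : ℝ) / 2 ^ N) N = b := by
          unfold pre
          rw [mul_div_cancel₀ _ h2.ne', Nat.floor_natCast]
        have h4 : (b : ℝ) / 2 ^ N ≤ z := by
          have h5 : b ≤ pre z N := by
            rw [hz, hfl]
            omega
          have h6 : (b : ℝ) ≤ pre z N := by exact_mod_cast h5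
          have h7 : (pre z N : ℝ) ≤ 2 ^ N * z := Nat.floor_le (by positivity)
          rw [div_le_iff₀ h2]
          linarith
        have h5 := hN _ ⟨by positivity, h4⟩ (by positivity)
        rwa [h3] at h5
      · rintro ⟨N, hN⟩
        by_contra hcon
        push Not at hcon
        have h1 : pre x N ≤ pre z N := by
          unfold pre
          refine Nat.floor_mono ?_
          have : (0 : ℝ) < 2 ^ N := by positivity
          nlinarith
        rw [hz, hfl] at h1
        obtain ⟨e, n, hn, hU⟩ := hN (pre x N) (by omega)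
        rw [pre_div' (by omega)] at hU
        exact hxO (Set.mem_iUnion.2 ⟨e, mem_comp_iff.2 ⟨hx0, n, hU⟩⟩)
    unfold LeftCE
    have hS : S1 true (fun v : Fin 2 → ℕ =>
        ∃ N, ∀ b, b < 2 ^ N * v 0 / (v 1 + 1) + 1 → fin' N b) := by
      refine S1_ex (S1_ball (((((CF.const 2).pow CF.last).mul (CF.var 0).init).div
        ((CF.var 1).init.add (CF.const 1))).add (CF.const 1)) ?_)
      unfold fin'
      refine S1_ex (S1_ex (S1.and (D1.lt CF.last (CF.last.init.init.init.add (CF.const 1))).pos ?_))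
      exact UU_S1 CF.last.init CF.last (CF.last.init.init.div
        ((CF.const 2).pow (CF.last.init.init.init.sub CF.last)))
    exact REPred.of_eq (repred2 (P := fun p q =>
      ∃ N, ∀ b, b < 2 ^ N * p / (q + 1) + 1 → fin' N b) hS) fun p => (key p.1 p.2).symm

end Pool.Agent.Helper626.Rand
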