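import Pool.Agent.Helper626.Rand.TT2

/-!
Truth-table reductions between left-c.e. random reals: the theorem.
-/

namespace Pool.Agent.Helper626.Rand

open Pool.Agent.Helper626 MeasureTheory

theorem primrec_pow : Primrec₂ ((· ^ ·) : ℕ → ℕ → ℕ) := Primrec₂.unpaired'.1 Nat.Primrec.pow

theorem bodd_eq (n : ℕ) : decide (n % 2 = 1) = Nat.bodd n := by
  rw [Nat.mod_two_of_bodd]
  cases n.bodd <;> rfl

theorem TTle.exists_functional {x y : ℝ} (h : TTle y x) (hy : y < 1) :
    ∃ (u : ℕ → ℕ) (g : ℕ → ℕ → ℕ), CF (fun v : Fin 1 → ℕ => u (v 0)) ∧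
      CF (fun v : Fin 2 → ℕ => g (v 0) (v 1)) ∧ (∀ n a, g n a ≤ 1) ∧
      ∀ m, PN u g x m = pre y m := by
  obtain ⟨P, f, hP, hf, hPf⟩ := h
  set u : ℕ → ℕ := fun n => (P n).foldr (fun p s => s + p + 1) 0 with hu
  have huC : Computable u := by
    have h1 : Primrec (fun L : List ℕ => L.foldr (fun p s => s + p + 1) 0) := by
      refine Primrec.list_foldr (f := fun L : List ℕ => L) (g := fun _ => 0)
        (h := fun _ q => q.2 + q.1 + 1) Primrec.id (Primrec.const 0) ?_
      refine Primrec₂.comp Primrec.nat_add (Primrec₂.comp Primrec.nat_add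
        (Primrec.snd.comp Primrec.snd) (Primrec.fst.comp Primrec.snd)) (Primrec.const 1)
    exact h1.to_comp.comp hP
  have hlt : ∀ (L : List ℕ) (p : ℕ), p ∈ L → p < L.foldr (fun p s => s + p + 1) 0 := by
    intro L
    induction L with
    | nil => intro p hp; simp at hp
    | cons a L ih =>
      intro p hp
      rw [List.foldr_cons]
      rcases List.mem_cons.1 hp with rfl | hp
      · omega
      · have := ih p hp
        omega
  set g : ℕ → ℕ → ℕ := fun n a => if f (n, (P n).map (fun p =>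
    decide (a / 2 ^ (u n - 1 - p) % 2 = 1))) = true then 1 else 0 with hgdef
  have hgC : Computable (fun c : ℕ => g c.unpair.1 c.unpair.2) := by
    have hn : Computable (fun c : ℕ => c.unpair.1) := (Primrec.fst.comp Primrec.unpair).to_comp
    have ha : Computable (fun c : ℕ => c.unpair.2) := (Primrec.snd.comp Primrec.unpair).to_comp
    have h1 : Primrec (fun q : List ℕ × ℕ × ℕ =>
        q.1.map (fun p => decide (q.2.1 / 2 ^ (q.2.2 - 1 - p) % 2 = 1))) := by
      refine Primrec.list_map (f := fun q : List ℕ × ℕ × ℕ => q.1)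
        (g := fun q p => decide (q.2.1 / 2 ^ (q.2.2 - 1 - p) % 2 = 1)) Primrec.fst ?_
      have h2 : Primrec (fun r : (List ℕ × ℕ × ℕ) × ℕ =>
          Nat.bodd (r.1.2.1 / 2 ^ (r.1.2.2 - 1 - r.2))) := by
        refine Primrec.nat_bodd.comp (Primrec.nat_div.comp
          (Primrec.fst.comp (Primrec.snd.comp Primrec.fst))
          (primrec_pow.comp (Primrec.const 2) (Primrec.nat_sub.comp (Primrec.nat_sub.comp
          (Primrec.snd.comp (Primrec.snd.comp Primrec.fst)) (Primrec.const 1)) Primrec.snd)))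
      exact h2.of_eq fun r => (bodd_eq _).symm
    have h2 : Computable (fun c : ℕ => (P c.unpair.1).map (fun p =>
        decide (c.unpair.2 / 2 ^ (u c.unpair.1 - 1 - p) % 2 = 1))) :=
      h1.to_comp.comp ((hP.comp hn).pair (ha.pair (huC.comp hn)))
    have h3 : Computable (fun c : ℕ => f (c.unpair.1, (P c.unpair.1).map (fun p =>
        decide (c.unpair.2 / 2 ^ (u c.unpair.1 - 1 - p) % 2 = 1)))) :=
      hf.comp (hn.pair h2)
    refine (Computable.cond h3 (Computable.const 1) (Computable.const 0)).of_eq fun c => ?_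
    simp only [hgdef]
    split_ifs with h4
    · rw [h4]; rfl
    · rw [Bool.not_eq_true] at h4
      rw [h4]; rfl
  refine ⟨u, g, CF_of_computable huC, ?_, ?_, ?_⟩
  · have h1 := CF.comp1 (h := fun c => g c.unpair.1 c.unpair.2) (CF_of_computable hgC)
      ((CF.var (n := 2) 0).pair (CF.var 1))
    refine h1.of_eq fun v => ?_
    simp only [Nat.unpair_pair]
  · intro n a
    simp only [hgdef]
    split_ifs <;> omega
  · have h1 : ∀ n, g n (pre x (u n)) = if bit y n = true then 1 else 0 := by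
      intro n
      have h2 : (P n).map (fun p => decide (pre x (u n) / 2 ^ (u n - 1 - p) % 2 = 1)) =
          (P n).map (bit x) := by
        refine List.map_congr_left fun p hp => ?_
        exact (bit_pre (hlt (P n) p hp)).symm
      simp only [hgdef]
      rw [h2, ← hPf]
    intro m
    induction m with
    | zero => exact (pre_zero hy).symm
    | succ m ih =>
      change 2 * PN u g x m + g m (pre x (u m)) = _
      rw [ih, h1, pre_succ]

/-- the decision -/
def dcs (u : ℕ → ℕ) (g : ℕ → ℕ → ℕ) (i k l : ℕ) : ℕ :=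
  if wt u g i (2 * k) l < wt u g i (2 * k + 1) l then 1 else 0

theorem eventually_dcs {x y : ℝ} (hx0 : 0 ≤ x) (hx1 : x < 1) (hy0 : 0 ≤ y) (hy1 : y < 1)
    (hxr : MLRandom x) (hyr : MLRandom y) (hxl : LeftCE x) (hyl : LeftCE y)
    {u : ℕ → ℕ} {g : ℕ → ℕ → ℕ} (hu : CF (fun v : Fin 1 → ℕ => u (v 0)))
    (hg : CF (fun v : Fin 2 → ℕ => g (v 0) (v 1))) (hg1 : ∀ n a, g n a ≤ 1)
    (h : ∀ m, PN u g x m = pre y m) :
    ∃ N, ∀ i, N ≤ i → pre x (i + 1) = 2 * pre x i +
      dcs u g (i + 1) (pre x i) (pre y (3 * (i + 1))) := by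
  obtain ⟨K1, hK1, hm1, hc1, hb1, hl1⟩ := exists_traj hx0 hx1 hxr hxl
  obtain ⟨K2, hK2, hm2, hc2, hb2, hl2⟩ := exists_traj hy0 hy1 hyr hyl
  obtain ⟨N1, hN1⟩ := solovay (EE_S1 hu hg hK1 hK2) 3
    (sum_EE (u := u) hg1 hm1 hm2 hc1 hc2 fun n t => (hb1 n t).trans_lt (pre_lt hx1 n)) hxr
  obtain ⟨N2, hN2⟩ := solovay (TT_S1 hu hg) 2 (sum_TT hg1) hyr
  refine ⟨N1 + N2, fun i hi => ?_⟩
  have h1 := hN1 (i + 1) (by omega)
  have h2 := hN2 (i + 1) (by omega)
  rw [comp_EE] at h1
  rw [comp_TT] at h2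
  have hsmall : small u g (i + 1) (pre y (3 * (i + 1))) := by
    by_contra hcon
    exact h2 ⟨hy0, hy1, hcon⟩
  have hpn : pn u g (dep u (i + 1)) (pre x (dep u (i + 1))) (3 * (i + 1)) =
      pre y (3 * (i + 1)) := by
    rw [← PN_eq_pn u g x (dep u (i + 1)) (3 * (i + 1)) fun n hn => u_le_dep u hn, h]
  have hpx : pre x (dep u (i + 1)) / 2 ^ (dep u (i + 1) - (i + 1)) = pre x (i + 1) :=
    pre_div' (le_dep u (i + 1))
  have hwrong : ¬ wrong u g (i + 1) (pre x (i + 1)) (pre y (3 * (i + 1))) := by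
    intro hcon
    refine h1 ⟨hx0, hx1, ?_⟩
    unfold cond
    rw [hpn, hpx]
    refine ⟨?_, hcon, hsmall⟩
    obtain ⟨t1, ht1⟩ := hl1 (i + 1)
    obtain ⟨t2, ht2⟩ := hl2 (3 * (i + 1))
    exact ⟨t1 + t2, ht1 _ (by omega), ht2 _ (by omega)⟩
  unfold wrong at hwrong
  push Not at hwrong
  have h3 := pre_half x i
  rcases Nat.mod_two_eq_zero_or_one (pre x (i + 1)) with h4 | h4
  · have h5 : pre x (i + 1) = 2 * pre x i := by omega
    have h6 : sib (pre x (i + 1)) = 2 * pre x i + 1 := by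
      unfold sib
      rw [if_pos h4]
      omega
    rw [h6, h5] at hwrong
    unfold dcs
    rw [if_neg (by omega)]
    omega
  · have h5 : pre x (i + 1) = 2 * pre x i + 1 := by omega
    have h6 : sib (pre x (i + 1)) = 2 * pre x i := by
      unfold sib
      rw [if_neg (by omega)]
      omega
    rw [h6, h5] at hwrong
    unfold dcs
    rw [if_pos (by omega)]
    omega

/-- reconstruction of the digits of `x` -/
def kap (u : ℕ → ℕ) (g : ℕ → ℕ → ℕ) (N K0 b M : ℕ) : ℕ → ℕ
  | 0 => 0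
  | m + 1 => if m + 1 ≤ N then K0 / 2 ^ (N - (m + 1)) else
    2 * kap u g N K0 b M m + dcs u g (m + 1) (kap u g N K0 b M m) (b / 2 ^ (3 * M - 3 * (m + 1)))

theorem dcs_CF {u : ℕ → ℕ} {g : ℕ → ℕ → ℕ} (hu : CF (fun v : Fin 1 → ℕ => u (v 0)))
    (hg : CF (fun v : Fin 2 → ℕ => g (v 0) (v 1))) {n : ℕ} {F G H : (Fin n → ℕ) → ℕ}
    (hF : CF F) (hG : CF G) (hH : CF H) : CF (fun v => dcs u g (F v) (G v) (H v)) := by
  unfold dcs
  refine CF.ite (D1.lt ?_ ?_) (CF.const 1) (CF.const 0)
  · exact wt_CF hu hg hF ((CF.const 2).mul hG) hH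
  · exact wt_CF hu hg hF (((CF.const 2).mul hG).add (CF.const 1)) hH

theorem kap_CF {u : ℕ → ℕ} {g : ℕ → ℕ → ℕ} (hu : CF (fun v : Fin 1 → ℕ => u (v 0)))
    (hg : CF (fun v : Fin 2 → ℕ => g (v 0) (v 1))) (N K0 : ℕ) :
    CF (fun v : Fin 3 → ℕ => kap u g N K0 (v 0) (v 1) (v 2)) := by
  have := CF.rec (n := 2) (A := fun _ => 0)
    (B := fun v m r => if m + 1 ≤ N then K0 / 2 ^ (N - (m + 1)) else
      2 * r + dcs u g (m + 1) r (v 0 / 2 ^ (3 * v 1 - 3 * (m + 1))))
    (R := fun v m => kap u g N K0 (v 0) (v 1) m) (CF.const 0) ?_ (fun v => rfl) (fun v m => rfl)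
  · exact this
  · have hm : CF (fun w : Fin 4 → ℕ => w 2 + 1) := (CF.var 2).add (CF.const 1)
    refine CF.ite (D1.le hm (CF.const N)) ?_ ?_
    · exact (CF.const K0).div ((CF.const 2).pow ((CF.const N).sub hm))
    · exact ((CF.const 2).mul (CF.var 3)).add (dcs_CF hu hg hm (CF.var 3)
        ((CF.var 0).div ((CF.const 2).pow (((CF.const 3).mul (CF.var 1)).sub
          ((CF.const 3).mul hm)))))

/-- number of a list of digits -/
def num (τ : List Bool) : ℕ := τ.foldl (fun r b => 2 * r + (bif b then 1 else 0)) 0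

theorem num_primrec : Primrec num := by
  refine Primrec.list_foldl (f := fun τ : List Bool => τ) (g := fun _ => 0)
    (h := fun _ q => 2 * q.1 + (bif q.2 then 1 else 0)) Primrec.id (Primrec.const 0) ?_
  refine Primrec.nat_add.comp (Primrec.nat_mul.comp (Primrec.const 2)
    (Primrec.fst.comp Primrec.snd)) (Primrec.cond (Primrec.snd.comp Primrec.snd)
      (Primrec.const 1) (Primrec.const 0))

theorem num_range {y : ℝ} (hy1 : y < 1) (m : ℕ) : num ((List.range m).map (bit y)) = pre y m := by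
  induction m with
  | zero => exact (pre_zero hy1).symm
  | succ m ih =>
    unfold num at ih ⊢
    rw [List.range_succ, List.map_append, List.foldl_append, ih, pre_succ]
    simp only [List.map_cons, List.map_nil, List.foldl_cons, List.foldl_nil]
    cases bit y m <;> rfl

theorem IsOmega.lt_one {x : ℝ} (h : IsOmega x) : x < 1 := by
  refine lt_of_le_of_ne h.2.1 ?_
  have := h.2.2.1.ne_dyadic 0 1
  simpa using this

theorem TTle_of_TTle {x y : ℝ} (hx : IsOmega x) (hy : IsOmega y) (h : TTle y x) : TTle x y := by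
  have hx1 := hx.lt_one
  have hy1 := hy.lt_one
  obtain ⟨u, g, hu, hg, hg1, hPN⟩ := h.exists_functional hy1
  obtain ⟨N, hN⟩ := eventually_dcs hx.1 hx1 hy.1 hy1 hx.2.2.1 hy.2.2.1 hx.2.2.2 hy.2.2.2
    hu hg hg1 hPN
  have hkap : ∀ M m, m ≤ M → kap u g N (pre x N) (pre y (3 * M)) M m = pre x m := by
    intro M m
    induction m with
    | zero => intro _; exact (pre_zero hx1).symm
    | succ m ih =>
      intro hm
      unfold kap
      split_ifs with h1
      · exact pre_div' h1
      · rw [ih (by omega), pre_div' (by omega), hN m (by omega)]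
  refine ⟨fun n => List.range (3 * (n + 1)), fun q =>
    decide (kap u g N (pre x N) (num q.2) (q.1 + 1) (q.1 + 1) % 2 = 1), ?_, ?_, ?_⟩
  · exact (Primrec.list_range.comp (Primrec.nat_mul.comp (Primrec.const 3) Primrec.succ)).to_comp
  · have h1 := computable_of_CF (α := ℕ × List Bool) (kap_CF hu hg N (pre x N))
      (g := ![fun q => num q.2, fun q => q.1 + 1, fun q => q.1 + 1]) (by
        intro i
        fin_cases i
        · exact (num_primrec.comp Primrec.snd).to_comp
        · exact (Primrec.succ.comp Primrec.fst).to_comp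
        · exact (Primrec.succ.comp Primrec.fst).to_comp)
    exact (Primrec.nat_bodd.to_comp.comp h1).of_eq fun q => (bodd_eq _).symm
  · intro n
    change bit x n = decide (kap u g N (pre x N) (num ((List.range (3 * (n + 1))).map (bit y)))
      (n + 1) (n + 1) % 2 = 1)
    rw [num_range hy1, hkap _ _ le_rfl, bit_eq]

end Pool.Agent.Helper626.Rand
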