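import Pool.Agent.Helper626.Rand.SWDefs
import Pool.Agent.Helper626.Rand.TT3

/-!
For a random real `x`, `x / 3` is strictly sw-below `x`.
-/

namespace Pool.Agent.Helper626.Rand

open Pool.Agent.Helper626 MeasureTheory

theorem mem_comp_iff {W : ℕ → ℕ → ℕ → Prop} {k : ℕ} {z : ℝ} :
    z ∈ comp W k ↔ 0 ≤ z ∧ ∃ n, W k n (pre z n) := by
  constructor
  · rintro ⟨n, a, h, hz⟩
    have h0 := dyadic_nonneg hz
    refine ⟨h0, n, ?_⟩
    rw [(mem_dyadic_iff h0 n a).1 hz]
    exact h
  · rintro ⟨h0, n, h⟩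
    exact ⟨n, _, h, (mem_dyadic_iff h0 _ _).2 rfl⟩

theorem pre_third (z : ℝ) (n : ℕ) : pre (z / 3) n = pre z n / 3 := by
  unfold pre
  have h : (2 : ℝ) ^ n * (z / 3) = (2 ^ n * z) / ((3 : ℕ) : ℝ) := by
    push_cast
    ring
  rw [h, Nat.floor_div_natCast]

theorem MLRandom.third {x : ℝ} (h : MLRandom x) : MLRandom (x / 3) := by
  intro W hW
  have htest : IsMLTest (fun k n c => W (k + 2) n (c / 3)) := by
    constructor
    · have h1 : Computable (fun t : ℕ × ℕ × ℕ => (t.1 + 2, t.2.1, t.2.2 / 3)) := by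
        have h2 : Primrec (fun t : ℕ × ℕ × ℕ => (t.1 + 2, t.2.1, t.2.2 / 3)) := by
          refine Primrec.pair (Primrec.nat_add.comp Primrec.fst (Primrec.const 2))
            (Primrec.pair (Primrec.fst.comp Primrec.snd)
              (Primrec.nat_div.comp (Primrec.snd.comp Primrec.snd) (Primrec.const 3)))
        exact h2.to_comp
      exact hW.1.comp h1
    · intro k
      have h1 : comp (fun k n c => W (k + 2) n (c / 3)) k =
          (fun z => z * (1 / 3)) ⁻¹' (comp W (k + 2)) := by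
        ext z
        rw [Set.mem_preimage, mem_comp_iff, mem_comp_iff]
        have h2 : z * (1 / 3) = z / 3 := by ring
        rw [h2]
        simp only [pre_third]
        have h3 : 0 ≤ z / 3 ↔ 0 ≤ z := by
          constructor
          · intro h; linarith
          · intro h; linarith
        rw [h3]
      rw [h1, Real.volume_preimage_mul_right (by norm_num)]
      have h2 := hW.2 (k + 2)
      calc _ ≤ ENNReal.ofReal |(1 / 3 : ℝ)⁻¹| * ENNReal.ofReal ((1 / 2) ^ (k + 2)) := by gcongr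
        _ = ENNReal.ofReal (|(1 / 3 : ℝ)⁻¹| * (1 / 2) ^ (k + 2)) :=
            (ENNReal.ofReal_mul (abs_nonneg _)).symm
        _ ≤ _ := by
            refine ENNReal.ofReal_le_ofReal ?_
            have h3 : |(1 / 3 : ℝ)⁻¹| = 3 := by norm_num
            rw [h3, pow_add]
            have : (0 : ℝ) < (1 / 2) ^ k := by positivity
            nlinarith
  obtain ⟨k, hk⟩ := h _ htest
  refine ⟨k + 2, fun hcon => hk ?_⟩
  rw [mem_comp_iff] at hcon ⊢
  obtain ⟨h0, n, hn⟩ := hcon
  rw [pre_third] at hn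
  exact ⟨by linarith, n, hn⟩

theorem LeftCE.third {x : ℝ} (h : LeftCE x) : LeftCE (x / 3) := by
  unfold LeftCE at *
  have h1 : Computable (fun p : ℕ × ℕ => (3 * p.1, p.2)) := by
    have h2 : Primrec (fun p : ℕ × ℕ => (3 * p.1, p.2)) :=
      Primrec.pair (Primrec.nat_mul.comp (Primrec.const 3) Primrec.fst) Primrec.snd
    exact h2.to_comp
  refine REPred.of_eq (p := fun p : ℕ × ℕ => ((3 * p.1 : ℕ) : ℝ) / ((p.2 : ℝ) + 1) < x)
    (h.comp h1) fun p => ?_
  push_cast
  have h2 : (0 : ℝ) < (p.2 : ℝ) + 1 := by positivity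
  rw [div_lt_iff₀ h2, div_lt_iff₀ h2]
  constructor
  · intro h; linarith
  · intro h; linarith

theorem IsOmega.third {x : ℝ} (h : IsOmega x) : IsOmega (x / 3) := by
  obtain ⟨h0, h1, h2, h3⟩ := h
  exact ⟨by linarith, by linarith, h2.third, h3.third⟩

theorem SWle.third {x : ℝ} (hx1 : x < 1) : SWle (x / 3) x := by
  refine ⟨0, fun q => Part.some (decide (num q.2 / 3 % 2 = 1)), ?_, ?_⟩
  · have h1 : Primrec (fun q : ℕ × List Bool => Nat.bodd (num q.2 / 3)) :=
      Primrec.nat_bodd.comp (Primrec.nat_div.comp (num_primrec.comp Primrec.snd)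
        (Primrec.const 3))
    have h2 : Computable (fun q : ℕ × List Bool => decide (num q.2 / 3 % 2 = 1)) :=
      h1.to_comp.of_eq fun q => (bodd_eq _).symm
    exact h2.partrec
  · intro n
    rw [Part.mem_some_iff, Nat.add_zero, num_range hx1, bit_eq, pre_third]

/-! ### Non-reducibility -/

/-- the numeric form of a partial function on lists -/
def hfun (c : ℕ) (f : ℕ × List Bool →. Bool) : ℕ →. ℕ := fun q =>
  (f (q.unpair.1, (List.range (q.unpair.1 + c + 1)).map
    (fun p => decide (q.unpair.2 / 2 ^ (q.unpair.1 + c - p) % 2 = 1)))).map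
    (fun b => bif b then 1 else 0)

theorem hfun_partrec (c : ℕ) {f : ℕ × List Bool →. Bool} (hf : Partrec f) :
    Partrec (hfun c f) := by
  have h1 : Primrec (fun q : ℕ => (List.range (q.unpair.1 + c + 1)).map
      (fun p => decide (q.unpair.2 / 2 ^ (q.unpair.1 + c - p) % 2 = 1))) := by
    refine Primrec.list_map (f := fun q : ℕ => List.range (q.unpair.1 + c + 1))
      (g := fun q p => decide (q.unpair.2 / 2 ^ (q.unpair.1 + c - p) % 2 = 1)) ?_ ?_
    · exact Primrec.list_range.comp (Primrec.nat_add.comp (Primrec.nat_add.comp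
        (Primrec.fst.comp Primrec.unpair) (Primrec.const c)) (Primrec.const 1))
    · have h2 : Primrec (fun r : ℕ × ℕ =>
          Nat.bodd (r.1.unpair.2 / 2 ^ (r.1.unpair.1 + c - r.2))) := by
        refine Primrec.nat_bodd.comp (Primrec.nat_div.comp
          ((Primrec.snd.comp Primrec.unpair).comp Primrec.fst)
          (primrec_pow.comp (Primrec.const 2) (Primrec.nat_sub.comp (Primrec.nat_add.comp
          ((Primrec.fst.comp Primrec.unpair).comp Primrec.fst) (Primrec.const c)) Primrec.snd)))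
      exact h2.of_eq fun r => (bodd_eq _).symm
  have h2 : Computable (fun q : ℕ => (q.unpair.1, (List.range (q.unpair.1 + c + 1)).map
      (fun p => decide (q.unpair.2 / 2 ^ (q.unpair.1 + c - p) % 2 = 1)))) :=
    (Primrec.pair (Primrec.fst.comp Primrec.unpair) h1).to_comp
  have h3 : Partrec (fun q : ℕ => f (q.unpair.1, (List.range (q.unpair.1 + c + 1)).map
      (fun p => decide (q.unpair.2 / 2 ^ (q.unpair.1 + c - p) % 2 = 1)))) := hf.comp h2
  exact h3.map (Computable.cond Computable.snd (Computable.const 1) (Computable.const 0)).to₂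

/-- the first `n` digits are computed correctly -/
def good (h : ℕ →. ℕ) (c n a : ℕ) : Prop :=
  ∀ j, j < n → a / 2 ^ (n + c - 1 - j) % 2 ∈ h (Nat.pair j (a / 3 / 2 ^ (n - 1 - j)))

theorem good_down {h : ℕ →. ℕ} {c n d a : ℕ} (hg : good h c (n + d) a) :
    good h c n (a / 2 ^ d) := by
  intro j hj
  have h1 := hg j (by omega)
  have h2 : a / 2 ^ (n + d + c - 1 - j) = a / 2 ^ d / 2 ^ (n + c - 1 - j) := by
    rw [Nat.div_div_eq_div_mul, ← pow_add]
    congr 2
    omega
  have h3 : a / 3 / 2 ^ (n + d - 1 - j) = a / 2 ^ d / 3 / 2 ^ (n - 1 - j) := by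
    rw [Nat.div_div_eq_div_mul a (2 ^ d) 3, Nat.mul_comm (2 ^ d) 3, ← Nat.div_div_eq_div_mul a 3,
      Nat.div_div_eq_div_mul (a / 3), ← pow_add]
    congr 2
    omega
  rwa [h2, h3] at h1

theorem not_both {h : ℕ →. ℕ} {c n k : ℕ} (hn : 0 < n) (hk : k % 3 ≠ 0)
    (h1 : good h c n (k * 2 ^ c)) (h2 : good h c n (k * 2 ^ c - 1)) : False := by
  have h3 := h1 (n - 1) (by omega)
  have h4 := h2 (n - 1) (by omega)
  have h5 : n + c - 1 - (n - 1) = c := by omega
  have h6 : n - 1 - (n - 1) = 0 := by omega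
  rw [h5, h6, pow_zero, Nat.div_one] at h3 h4
  have h7 : (k * 2 ^ c - 1) / 3 = k * 2 ^ c / 3 := by
    have h8 : k * 2 ^ c % 3 ≠ 0 := by
      intro hcon
      have h9 : 3 ∣ k * 2 ^ c := Nat.dvd_of_mod_eq_zero hcon
      rcases (Nat.Prime.dvd_mul Nat.prime_three).1 h9 with h10 | h10
      · exact hk (Nat.mod_eq_zero_of_dvd h10)
      · have h11 := Nat.Prime.dvd_of_dvd_pow Nat.prime_three h10
        omega
    omega
  rw [h7] at h4
  have h8 := Part.mem_unique h3 h4
  have h9 : 0 < 2 ^ c := by positivity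
  have hk0 : 0 < k := by
    rcases Nat.eq_zero_or_pos k with h | h
    · rw [h] at hk
      exact absurd rfl hk
    · exact h
  have h10 : k * 2 ^ c / 2 ^ c = k := Nat.mul_div_cancel _ h9
  have h11 : (k * 2 ^ c - 1) / 2 ^ c = k - 1 := by
    rw [Nat.div_eq_iff h9]
    have : (k - 1) * 2 ^ c + 2 ^ c = k * 2 ^ c := by
      rw [← Nat.succ_mul]
      congr 1
      omega
    constructor <;> omega
  rw [h10, h11] at h8
  omega

open Classical in
theorem card_step (h : ℕ →. ℕ) (c n : ℕ) :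
    ((Finset.range (2 ^ (n + (c + 2) + c))).filter (good h c (n + (c + 2)))).card ≤
      (2 ^ (c + 2) - 1) * ((Finset.range (2 ^ (n + c))).filter (good h c n)).card := by
  refine Finset.card_le_mul_card_image_of_maps_to (f := fun a => a / 2 ^ (c + 2)) ?_ _ ?_
  · intro a ha
    rw [Finset.mem_filter, Finset.mem_range] at ha ⊢
    refine ⟨?_, good_down ha.2⟩
    rw [Nat.div_lt_iff_lt_mul (by positivity), ← pow_add]
    have : n + c + (c + 2) = n + (c + 2) + c := by ring
    rw [this]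
    exact ha.1
  · intro b _
    obtain ⟨k, hk3, hkb⟩ : ∃ k, k % 3 ≠ 0 ∧ (k = 4 * b + 1 ∨ k = 4 * b + 2) := by
      by_cases h1 : (4 * b + 1) % 3 = 0
      · exact ⟨4 * b + 2, by omega, Or.inr rfl⟩
      · exact ⟨4 * b + 1, h1, Or.inl rfl⟩
    have h4 : 0 < 2 ^ c := by positivity
    have h5 : 2 ^ (c + 2) = 4 * 2 ^ c := by
      rw [pow_add]
      ring
    obtain ⟨w, hw1, hw2, hw3⟩ : ∃ w, b * 2 ^ (c + 2) ≤ w ∧ w < (b + 1) * 2 ^ (c + 2) ∧
        ¬ good h c (n + (c + 2)) w := by
      by_cases h1 : good h c (n + (c + 2)) (k * 2 ^ c)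
      · refine ⟨k * 2 ^ c - 1, ?_, ?_, fun h2 => not_both (by omega) hk3 h1 h2⟩
        · rw [h5]
          rcases hkb with rfl | rfl
          · have : (4 * b + 1) * 2 ^ c = b * (4 * 2 ^ c) + 2 ^ c := by ring
            omega
          · have : (4 * b + 2) * 2 ^ c = b * (4 * 2 ^ c) + 2 * 2 ^ c := by ring
            omega
        · rw [h5]
          rcases hkb with rfl | rfl
          · have : (4 * b + 1) * 2 ^ c = b * (4 * 2 ^ c) + 2 ^ c := by ring
            have : (b + 1) * (4 * 2 ^ c) = b * (4 * 2 ^ c) + 4 * 2 ^ c := by ring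
            omega
          · have : (4 * b + 2) * 2 ^ c = b * (4 * 2 ^ c) + 2 * 2 ^ c := by ring
            have : (b + 1) * (4 * 2 ^ c) = b * (4 * 2 ^ c) + 4 * 2 ^ c := by ring
            omega
      · refine ⟨k * 2 ^ c, ?_, ?_, h1⟩
        · rw [h5]
          rcases hkb with rfl | rfl
          · have : (4 * b + 1) * 2 ^ c = b * (4 * 2 ^ c) + 2 ^ c := by ring
            omega
          · have : (4 * b + 2) * 2 ^ c = b * (4 * 2 ^ c) + 2 * 2 ^ c := by ring
            omega
        · rw [h5]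
          rcases hkb with rfl | rfl
          · have : (4 * b + 1) * 2 ^ c = b * (4 * 2 ^ c) + 2 ^ c := by ring
            have : (b + 1) * (4 * 2 ^ c) = b * (4 * 2 ^ c) + 4 * 2 ^ c := by ring
            omega
          · have : (4 * b + 2) * 2 ^ c = b * (4 * 2 ^ c) + 2 * 2 ^ c := by ring
            have : (b + 1) * (4 * 2 ^ c) = b * (4 * 2 ^ c) + 4 * 2 ^ c := by ring
            omega
    have h6 : (((Finset.range (2 ^ (n + (c + 2) + c))).filter (good h c (n + (c + 2)))).filter
        (fun a => a / 2 ^ (c + 2) = b)) ⊆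
        (Finset.Ico (b * 2 ^ (c + 2)) ((b + 1) * 2 ^ (c + 2))).erase w := by
      intro a
      simp only [Finset.mem_filter, Finset.mem_erase, Finset.mem_Ico]
      rintro ⟨⟨_, h7⟩, h8⟩
      refine ⟨fun h9 => hw3 (h9 ▸ h7), ?_, ?_⟩
      · rw [← h8]
        exact Nat.div_mul_le_self _ _
      · rw [← Nat.div_lt_iff_lt_mul (by positivity), h8]
        omega
    refine (Finset.card_le_card h6).trans ?_
    rw [Finset.card_erase_of_mem (Finset.mem_Ico.2 ⟨hw1, hw2⟩), Nat.card_Ico]
    have : (b + 1) * 2 ^ (c + 2) - b * 2 ^ (c + 2) = 2 ^ (c + 2) := by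
      rw [Nat.succ_mul]
      omega
    rw [this]

open Classical in
theorem card_bound (h : ℕ →. ℕ) (c j : ℕ) :
    ((Finset.range (2 ^ (j * (c + 2) + c))).filter (good h c (j * (c + 2)))).card ≤
      (2 ^ (c + 2) - 1) ^ j * 2 ^ c := by
  induction j with
  | zero =>
    refine (Finset.card_filter_le _ _).trans ?_
    simp
  | succ j ih =>
    have h1 := card_step h c (j * (c + 2))
    have h2 : (j + 1) * (c + 2) = j * (c + 2) + (c + 2) := by ring
    rw [h2]
    refine h1.trans ?_
    rw [pow_succ (2 ^ (c + 2) - 1) j, Nat.mul_comm _ (2 ^ (c + 2) - 1), Nat.mul_assoc]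
    exact Nat.mul_le_mul_left _ ih

theorem volume_good (h : ℕ →. ℕ) (c j : ℕ) :
    volume (clo (j * (c + 2) + c) (good h c (j * (c + 2)))) ≤
      ENNReal.ofReal ((1 - (1 / 2) ^ (c + 2)) ^ j) := by
  classical
  rw [volume_clo]
  refine ENNReal.ofReal_le_ofReal ?_
  have h1 := card_bound h c j
  rw [← Nat.count_eq_card_filter_range] at h1
  have h2 : (Nat.count (good h c (j * (c + 2))) (2 ^ (j * (c + 2) + c)) : ℝ) ≤
      (2 ^ (c + 2) - 1) ^ j * 2 ^ c := by
    have h3 : (Nat.count (good h c (j * (c + 2))) (2 ^ (j * (c + 2) + c)) : ℝ) ≤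
        (((2 ^ (c + 2) - 1) ^ j * 2 ^ c : ℕ) : ℝ) := by exact_mod_cast h1
    rw [Nat.cast_mul, Nat.cast_pow, Nat.cast_sub Nat.one_le_two_pow] at h3
    push_cast at h3
    exact h3
  have h3 : (0 : ℝ) < (1 / 2) ^ (j * (c + 2) + c) := by positivity
  refine (mul_le_mul_of_nonneg_right h2 h3.le).trans (le_of_eq ?_)
  have h4 : ((1 : ℝ) / 2) ^ (j * (c + 2) + c) = ((1 / 2) ^ (c + 2)) ^ j * (1 / 2) ^ c := by
    rw [pow_add, Nat.mul_comm, pow_mul]
  rw [h4]
  have h5 := half_pow_mul c
  have h6 := half_pow_mul (c + 2)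
  have h7 : (1 : ℝ) - (1 / 2) ^ (c + 2) = (2 ^ (c + 2) - 1) * (1 / 2) ^ (c + 2) := by
    rw [sub_mul, h6, one_mul]
  rw [h7, mul_pow]
  generalize ((2 : ℝ) ^ (c + 2) - 1) ^ j = A
  generalize (((1 : ℝ) / 2) ^ (c + 2)) ^ j = B
  generalize (2 : ℝ) ^ c = C at h5 ⊢
  generalize ((1 : ℝ) / 2) ^ c = D at h5 ⊢
  calc A * C * (B * D) = A * B * (C * D) := by ring
    _ = _ := by rw [h5, mul_one]

theorem good_S1 {h : ℕ →. ℕ} (hh : Partrec h) (c : ℕ) {n : ℕ} {F G : (Fin n → ℕ) → ℕ}
    (hF : CF F) (hG : CF G) : S1 true (fun v => good h c (F v) (G v)) := by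
  have h2 := S1.of_partrec (e := true) (Partrec.nat_iff.1 hh)
  refine S1_ball hF ?_
  have h3 := S1_sub h2 (n := n + 1) (F := ![fun w => Nat.pair (w (Fin.last n))
      (G (Fin.init w) / 3 / 2 ^ (F (Fin.init w) - 1 - w (Fin.last n))),
    fun w => G (Fin.init w) / 2 ^ (F (Fin.init w) + c - 1 - w (Fin.last n)) % 2]) (by
      intro i
      fin_cases i
      · exact CF.last.pair ((hG.init.div (CF.const 3)).div ((CF.const 2).pow
          ((hF.init.sub (CF.const 1)).sub CF.last)))
      · exact (hG.init.div ((CF.const 2).pow (((hF.init.add (CF.const c)).sub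
          (CF.const 1)).sub CF.last))).mod (CF.const 2))
  exact h3

theorem not_SWle_third {x : ℝ} (hx0 : 0 ≤ x) (hx1 : x < 1) (hr : MLRandom x) :
    ¬ SWle x (x / 3) := by
  rintro ⟨c, f, hf, hcorr⟩
  have hh := hfun_partrec c hf
  set h := hfun c f
  have hgood : ∀ n, good h c n (pre x (n + c)) := by
    intro n j hj
    have h1 := hcorr j
    have h2 : pre x (n + c) / 2 ^ (n + c - 1 - j) = pre x (j + 1) := by
      have := pre_div' (z := x) (show j + 1 ≤ n + c by omega)
      rw [← this]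
      congr 2
      omega
    have h3 : pre x (n + c) / 3 / 2 ^ (n - 1 - j) = pre (x / 3) (j + c + 1) := by
      rw [← pre_third]
      have := pre_div' (z := x / 3) (show j + c + 1 ≤ n + c by omega)
      rw [← this]
      congr 2
      omega
    rw [h2, h3]
    change _ ∈ Part.map _ _
    rw [Part.mem_map_iff]
    refine ⟨bit x j, ?_, ?_⟩
    · have h4 : (List.range (j + c + 1)).map
          (fun p => decide (pre (x / 3) (j + c + 1) / 2 ^ (j + c - p) % 2 = 1)) =
          (List.range (j + c + 1)).map (bit (x / 3)) := by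
        refine List.map_congr_left fun p hp => ?_
        rw [List.mem_range] at hp
        rw [bit_pre hp]
        rfl
      simp only [Nat.unpair_pair]
      rw [h4]
      exact h1
    · rw [bit_eq]
      rcases Nat.mod_two_eq_zero_or_one (pre x (j + 1)) with h5 | h5
      · rw [h5]; rfl
      · rw [h5]; rfl
  have hδ : (1 : ℝ) - (1 / 2) ^ (c + 2) < 1 := by
    have : (0 : ℝ) < (1 / 2) ^ (c + 2) := by positivity
    linarith
  have hδ0 : (0 : ℝ) ≤ 1 - (1 / 2) ^ (c + 2) := by
    have : ((1 : ℝ) / 2) ^ (c + 2) ≤ 1 := pow_le_one₀ (by norm_num) (by norm_num)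
    linarith
  obtain ⟨J, hJ⟩ := exists_pow_lt_of_lt_one (show (0 : ℝ) < 1 / 2 by norm_num) hδ
  have htest : IsMLTest (fun k m a => m = J * k * (c + 2) + c ∧ a < 2 ^ m ∧
      good h c (J * k * (c + 2)) a) := by
    constructor
    · refine repred3 (P := fun k m a => m = J * k * (c + 2) + c ∧ a < 2 ^ m ∧
        good h c (J * k * (c + 2)) a) ?_
      have h1 : CF (fun v : Fin 3 → ℕ => J * v 0 * (c + 2)) :=
        ((CF.const J).mul (CF.var 0)).mul (CF.const (c + 2))
      exact (D1.eq (CF.var 1) (h1.add (CF.const c))).pos.and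
        ((D1.lt (CF.var 2) ((CF.const 2).pow (CF.var 1))).pos.and (good_S1 hh c h1 (CF.var 2)))
    · intro k
      have h1 : comp (fun k m a => m = J * k * (c + 2) + c ∧ a < 2 ^ m ∧
          good h c (J * k * (c + 2)) a) k ⊆
          clo (J * k * (c + 2) + c) (good h c (J * k * (c + 2))) := by
        intro z hz
        obtain ⟨n, a, ⟨rfl, ha, hg⟩, hz'⟩ := hz
        have h0 := dyadic_nonneg hz'
        refine ⟨h0, ?_, ?_⟩
        · unfold dyadic at hz'
          refine hz'.2.trans_le ?_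
          rw [div_le_one (by positivity)]
          exact_mod_cast ha
        · rw [(mem_dyadic_iff h0 _ _).1 hz']
          exact hg
      refine (measure_mono h1).trans ((volume_good h c (J * k)).trans ?_)
      refine ENNReal.ofReal_le_ofReal ?_
      rw [pow_mul]
      exact pow_le_pow_left₀ (pow_nonneg hδ0 _) hJ.le k
  obtain ⟨k, hk⟩ := hr _ htest
  apply hk
  rw [mem_comp_iff]
  exact ⟨hx0, _, rfl, pre_lt hx1 _, hgood _⟩

end Pool.Agent.Helper626.Rand
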