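import Pool.Agent.Helper626.Rand.Defs

/-!
Definition of strong weak truth-table reducibility.
-/

namespace Pool.Agent.Helper626.Rand

/-- sw-reducibility `x ≤_sw y` of the binary expansions: for some constant `c` and some partial
computable `f`, the `n`-th digit of `x` is the value of `f` at `n` and the list of the digits of `y`
at the positions `0, 1, …, n + c`. -/
def SWle (x y : ℝ) : Prop :=
  ∃ (c : ℕ) (f : ℕ × List Bool →. Bool), Partrec f ∧
    ∀ n, bit x n ∈ f (n, (List.range (n + c + 1)).map (bit y))

end Pool.Agent.Helper626.Rand
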