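import Pool.Agent.Helper626.Rand.Base

/-!
Solovay tests: a random real belongs to finitely many members of a uniformly c.e. sequence of open
sets whose measures have a finite sum.
-/

namespace Pool.Agent.Helper626.Rand

open Pool.Agent.Helper626 MeasureTheory

/-- refined enumeration -/
def fine (E : ℕ → ℕ → ℕ → Prop) (i n a : ℕ) : Prop := ∃ m, m < n + 1 ∧ E i m (a / 2 ^ (n - m))

theorem fine_S1 {E : ℕ → ℕ → ℕ → Prop}
    (hE : S1 true (fun v : Fin 3 → ℕ => E (v 0) (v 1) (v 2))) {k : ℕ}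
    {F G H : (Fin k → ℕ) → ℕ} (hF : CF F) (hG : CF G) (hH : CF H) :
    S1 true (fun v => fine E (F v) (G v) (H v)) := by
  refine S1_ex (S1.and (D1.lt CF.last (hG.init.add (CF.const 1))).pos ?_)
  exact S1_sub hE (F := ![fun w => F (Fin.init w), fun w => w (Fin.last k),
    fun w => H (Fin.init w) / 2 ^ (G (Fin.init w) - w (Fin.last k))]) (by
      intro i
      fin_cases i
      · exact hF.init
      · exact CF.last
      · exact hH.init.div ((CF.const 2).pow (hG.init.sub CF.last)))

theorem mem_comp_of_fine {E : ℕ → ℕ → ℕ → Prop} {i n a : ℕ} (h : fine E i n a) {x : ℝ}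
    (hx : x ∈ dyadic n a) : x ∈ comp E i := by
  obtain ⟨m, hm, hE⟩ := h
  have h0 := dyadic_nonneg hx
  rw [mem_dyadic_iff h0] at hx
  refine ⟨m, _, hE, ?_⟩
  rw [mem_dyadic_iff h0, pre_div x m (n - m), ← hx]
  congr 2
  omega

/-- the test -/
def solW (E : ℕ → ℕ → ℕ → Prop) (C : ℕ) (k n a : ℕ) : Prop :=
  ∃ s, ∀ j, j < C * 2 ^ k + 1 → (fine E (Nat.beta s j) n a ∧
    ∀ j', j' < j → Nat.beta s j' < Nat.beta s j)

theorem solW_S1 {E : ℕ → ℕ → ℕ → Prop}
    (hE : S1 true (fun v : Fin 3 → ℕ => E (v 0) (v 1) (v 2))) (C : ℕ) :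
    S1 true (fun v : Fin 3 → ℕ => solW E C (v 0) (v 1) (v 2)) := by
  refine S1_ex (S1_ball (((CF.const C).mul ((CF.const 2).pow (CF.var 0).init)).add (CF.const 1)) ?_)
  refine S1.and ?_ ?_
  · exact fine_S1 hE (CF.last.init.beta CF.last) (CF.var 1).init.init (CF.var 2).init.init
  · refine S1_ball CF.last ?_
    exact (D1.lt (CF.beta CF.last.init.init CF.last)
      (CF.beta CF.last.init.init CF.last.init)).pos

theorem solovay {E : ℕ → ℕ → ℕ → Prop}
    (hE : S1 true (fun v : Fin 3 → ℕ => E (v 0) (v 1) (v 2))) (C : ℕ)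
    (hC : ∑' i, volume (comp E i) ≤ C) {x : ℝ} (hx : MLRandom x) :
    ∃ N, ∀ i, N ≤ i → x ∉ comp E i := by
  by_contra hcon
  push Not at hcon
  have hmeas : ∀ i, MeasurableSet (comp E i) := fun i => measurableSet_comp E i
  have htest : IsMLTest (solW E C) := by
    refine ⟨repred3 (solW_S1 hE C), fun k => ?_⟩
    have h1 : ∀ y ∈ comp (solW E C) k, ((C * 2 ^ k + 1 : ℕ) : ENNReal) ≤
        ∑' i, (comp E i).indicator (fun _ => (1 : ENNReal)) y := by
      rintro y ⟨n, a, ⟨s, hs⟩, hy⟩
      have hinj : Set.InjOn (fun j => Nat.beta s j) (Finset.range (C * 2 ^ k + 1) : Set ℕ) := by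
        intro j hj j' hj' h
        simp only [Finset.coe_range, Set.mem_Iio] at hj hj'
        rcases lt_trichotomy j j' with h2 | h2 | h2
        · have h3 := (hs j' hj').2 j h2
          have h4 : Nat.beta s j = Nat.beta s j' := h
          omega
        · exact h2
        · have h3 := (hs j hj).2 j' h2
          have h4 : Nat.beta s j = Nat.beta s j' := h
          omega
      have h2 : ∑ i ∈ (Finset.range (C * 2 ^ k + 1)).image (fun j => Nat.beta s j),
          (comp E i).indicator (fun _ => (1 : ENNReal)) y ≤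
          ∑' i, (comp E i).indicator (fun _ => (1 : ENNReal)) y := ENNReal.sum_le_tsum _
      refine le_trans ?_ h2
      rw [Finset.sum_image hinj]
      have h3 : ∀ j ∈ Finset.range (C * 2 ^ k + 1),
          (comp E (Nat.beta s j)).indicator (fun _ => (1 : ENNReal)) y = 1 := by
        intro j hj
        rw [Finset.mem_range] at hj
        exact Set.indicator_of_mem (mem_comp_of_fine (hs j hj).1 hy) _
      rw [Finset.sum_congr rfl h3]
      simp
    have h2 : ∫⁻ y, ∑' i, (comp E i).indicator (fun _ => (1 : ENNReal)) y =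
        ∑' i, volume (comp E i) := by
      rw [lintegral_tsum]
      · congr 1
        funext i
        rw [lintegral_indicator (hmeas i)]
        simp
      · intro i
        exact (measurable_const.indicator (hmeas i)).aemeasurable
    have h3 := meas_ge_le_lintegral_div (μ := volume)
      (f := fun y => ∑' i, (comp E i).indicator (fun _ => (1 : ENNReal)) y)
      (Measurable.aemeasurable (Measurable.ennreal_tsum fun i =>
        measurable_const.indicator (hmeas i)))
      (ε := ((C * 2 ^ k + 1 : ℕ) : ENNReal)) (by simp) (ENNReal.natCast_ne_top _)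
    have h4 : volume (comp (solW E C) k) ≤ (C : ENNReal) / ((C * 2 ^ k + 1 : ℕ) : ENNReal) := by
      refine (measure_mono h1).trans (h3.trans ?_)
      rw [h2]
      exact ENNReal.div_le_div_right hC _
    refine h4.trans ?_
    have h5 : (C : ENNReal) / ((C * 2 ^ k + 1 : ℕ) : ENNReal) =
        ENNReal.ofReal ((C : ℝ) / ((C * 2 ^ k + 1 : ℕ) : ℝ)) := by
      rw [ENNReal.ofReal_div_of_pos (by positivity), ENNReal.ofReal_natCast,
        ENNReal.ofReal_natCast]
    rw [h5]
    refine ENNReal.ofReal_le_ofReal ?_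
    rw [div_le_iff₀ (by positivity)]
    push_cast
    have h6 : ((1 : ℝ) / 2) ^ k * 2 ^ k = 1 := by
      rw [← mul_pow]
      norm_num
    have h7 : (0 : ℝ) < (1 / 2) ^ k := by positivity
    have h8 : ((1 : ℝ) / 2) ^ k * (C * 2 ^ k + 1) = C * ((1 / 2) ^ k * 2 ^ k) + (1 / 2) ^ k := by
      ring
    rw [h8, h6]
    linarith
  obtain ⟨k, hk⟩ := hx _ htest
  apply hk
  obtain ⟨φ, hφ, hφ'⟩ := Filter.extraction_of_frequently_atTop (P := fun i => x ∈ comp E i)
    (Filter.frequently_atTop.2 fun N => hcon N)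
  obtain ⟨s, hs⟩ := beta_exists φ (C * 2 ^ k + 1)
  choose m b hb hxm using hφ'
  have hx0 : 0 ≤ x := dyadic_nonneg (hxm 0)
  refine ⟨∑ j ∈ Finset.range (C * 2 ^ k + 1), m j, pre x (∑ j ∈ Finset.range (C * 2 ^ k + 1), m j),
    ⟨s, fun j hj => ⟨?_, fun j' hj' => ?_⟩⟩, (mem_dyadic_iff hx0 _ _).2 rfl⟩
  · rw [hs j (by omega)]
    have h1 : m j ≤ ∑ j ∈ Finset.range (C * 2 ^ k + 1), m j :=
      Finset.single_le_sum (f := m) (fun _ _ => Nat.zero_le _) (Finset.mem_range.2 hj)
    refine ⟨m j, Nat.lt_succ_of_le h1, ?_⟩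
    have h2 := pre_div x (m j) ((∑ j ∈ Finset.range (C * 2 ^ k + 1), m j) - m j)
    rw [Nat.add_sub_cancel' h1] at h2
    rw [← h2, (mem_dyadic_iff hx0 _ _).1 (hxm j)]
    exact hb j
  · rw [hs j (by omega), hs j' (by omega)]
    exact hφ hj'

end Pool.Agent.Helper626.Rand
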