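import Pool.Agent.Helper626.Rand.Traj

/-!
Truth-table reductions between left-c.e. random reals.
-/

namespace Pool.Agent.Helper626.Rand

open Pool.Agent.Helper626 MeasureTheory

/-- numeric form of the output of the reduction -/
def pn (u : ℕ → ℕ) (g : ℕ → ℕ → ℕ) (D a : ℕ) : ℕ → ℕ
  | 0 => 0
  | m + 1 => 2 * pn u g D a m + g m (a / 2 ^ (D - u m))

/-- output of the reduction -/
noncomputable def PN (u : ℕ → ℕ) (g : ℕ → ℕ → ℕ) (z : ℝ) : ℕ → ℕ
  | 0 => 0
  | m + 1 => 2 * PN u g z m + g m (pre z (u m))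

def us (u : ℕ → ℕ) : ℕ → ℕ
  | 0 => 0
  | m + 1 => us u m + u m

def dep (u : ℕ → ℕ) (i : ℕ) : ℕ := i + us u (3 * i)

def vis (K1 K2 : ℕ → ℕ → ℕ) (i k l : ℕ) : Prop := ∃ t, K1 i t = k ∧ K2 (3 * i) t = l

def wt (u : ℕ → ℕ) (g : ℕ → ℕ → ℕ) (i k l : ℕ) : ℕ :=
  Nat.count (fun a => a / 2 ^ (dep u i - i) = k ∧ pn u g (dep u i) a (3 * i) = l) (2 ^ dep u i)

def wl (u : ℕ → ℕ) (g : ℕ → ℕ → ℕ) (i l : ℕ) : ℕ :=
  Nat.count (fun a => pn u g (dep u i) a (3 * i) = l) (2 ^ dep u i)

def sib (k : ℕ) : ℕ := if k % 2 = 0 then k + 1 else k - 1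

def wrong (u : ℕ → ℕ) (g : ℕ → ℕ → ℕ) (i k l : ℕ) : Prop := wt u g i k l ≤ wt u g i (sib k) l

def small (u : ℕ → ℕ) (g : ℕ → ℕ → ℕ) (i l : ℕ) : Prop := wl u g i l * 2 ^ (2 * i) ≤ 2 ^ dep u i

/-- condition for the Solovay test -/
def cond (u : ℕ → ℕ) (g : ℕ → ℕ → ℕ) (K1 K2 : ℕ → ℕ → ℕ) (i a : ℕ) : Prop :=
  vis K1 K2 i (a / 2 ^ (dep u i - i)) (pn u g (dep u i) a (3 * i)) ∧
  wrong u g i (a / 2 ^ (dep u i - i)) (pn u g (dep u i) a (3 * i)) ∧
  small u g i (pn u g (dep u i) a (3 * i))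

/-- the Solovay test for `x` -/
def EE (u : ℕ → ℕ) (g : ℕ → ℕ → ℕ) (K1 K2 : ℕ → ℕ → ℕ) (i n a : ℕ) : Prop :=
  n = dep u i ∧ a < 2 ^ dep u i ∧ cond u g K1 K2 i a

/-- the Solovay test for `y` -/
def TT (u : ℕ → ℕ) (g : ℕ → ℕ → ℕ) (i n b : ℕ) : Prop :=
  n = 3 * i ∧ b < 2 ^ (3 * i) ∧ ¬ small u g i b

section computability

variable {u : ℕ → ℕ} {g : ℕ → ℕ → ℕ} {K1 K2 : ℕ → ℕ → ℕ}
  (hu : CF (fun v : Fin 1 → ℕ => u (v 0))) (hg : CF (fun v : Fin 2 → ℕ => g (v 0) (v 1)))
  (h1 : CF (fun v : Fin 2 → ℕ => K1 (v 0) (v 1))) (h2 : CF (fun v : Fin 2 → ℕ => K2 (v 0) (v 1)))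

include hu hg

theorem pn_CF {n : ℕ} {F G H : (Fin n → ℕ) → ℕ} (hF : CF F) (hG : CF G) (hH : CF H) :
    CF (fun v => pn u g (F v) (G v) (H v)) := by
  refine CF.comp3 (h := fun D a m => pn u g D a m) ?_ hF hG hH
  have := CF.rec (n := 2) (A := fun _ => 0)
    (B := fun v m r => 2 * r + g m (v 1 / 2 ^ (v 0 - u m)))
    (R := fun v m => pn u g (v 0) (v 1) m) (CF.const 0) ?_ (fun v => rfl) (fun v m => rfl)
  · exact this
  · refine ((CF.const 2).mul CF.last).add (CF.comp2 hg (CF.var 2) ?_)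
    exact (CF.var 1).div ((CF.const 2).pow ((CF.var 0).sub (CF.comp1 hu (CF.var 2))))

omit hg in
theorem us_CF {n : ℕ} {F : (Fin n → ℕ) → ℕ} (hF : CF F) : CF (fun v => us u (F v)) := by
  refine CF.comp1 (h := us u) ?_ hF
  have := CF.rec (n := 0) (A := fun _ => 0) (B := fun _ m r => r + u m)
    (R := fun _ m => us u m) (CF.const 0) ?_ (fun v => rfl) (fun v m => rfl)
  · exact this
  · exact CF.last.add (CF.comp1 hu (CF.var 0))

omit hg in
theorem dep_CF {n : ℕ} {F : (Fin n → ℕ) → ℕ} (hF : CF F) : CF (fun v => dep u (F v)) :=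
  hF.add (us_CF hu ((CF.const 3).mul hF))

theorem wt_CF {n : ℕ} {F G H : (Fin n → ℕ) → ℕ} (hF : CF F) (hG : CF G) (hH : CF H) :
    CF (fun v => wt u g (F v) (G v) (H v)) := by
  refine CF.comp3 (h := fun i k l => wt u g i k l) ?_ hF hG hH
  refine CF.count (P := fun (v : Fin 3 → ℕ) a => a / 2 ^ (dep u (v 0) - v 0) = v 1 ∧
    pn u g (dep u (v 0)) a (3 * v 0) = v 2) ?_ ((CF.const 2).pow (dep_CF hu (CF.var 0)))
  refine D1.and (D1.eq ?_ (CF.var 1).init) (D1.eq ?_ (CF.var 2).init)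
  · exact CF.last.div ((CF.const 2).pow ((dep_CF hu (CF.var 0).init).sub (CF.var 0).init))
  · exact pn_CF hu hg (dep_CF hu (CF.var 0).init) CF.last ((CF.const 3).mul (CF.var 0).init)

theorem wl_CF {n : ℕ} {F G : (Fin n → ℕ) → ℕ} (hF : CF F) (hG : CF G) :
    CF (fun v => wl u g (F v) (G v)) := by
  refine CF.comp2 (h := fun i l => wl u g i l) ?_ hF hG
  refine CF.count (P := fun (v : Fin 2 → ℕ) a => pn u g (dep u (v 0)) a (3 * v 0) = v 1) ?_
    ((CF.const 2).pow (dep_CF hu (CF.var 0)))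
  exact D1.eq (pn_CF hu hg (dep_CF hu (CF.var 0).init) CF.last
    ((CF.const 3).mul (CF.var 0).init)) (CF.var 1).init

omit hu hg in
theorem sib_CF {n : ℕ} {F : (Fin n → ℕ) → ℕ} (hF : CF F) : CF (fun v => sib (F v)) := by
  unfold sib
  exact CF.ite (D1.eq (hF.mod (CF.const 2)) (CF.const 0)) (hF.add (CF.const 1))
    (hF.sub (CF.const 1))

theorem wrong_D1 {n : ℕ} {F G H : (Fin n → ℕ) → ℕ} (hF : CF F) (hG : CF G) (hH : CF H) :
    D1 (fun v => wrong u g (F v) (G v) (H v)) :=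
  D1.le (wt_CF hu hg hF hG hH) (wt_CF hu hg hF (sib_CF hG) hH)

theorem small_D1 {n : ℕ} {F G : (Fin n → ℕ) → ℕ} (hF : CF F) (hG : CF G) :
    D1 (fun v => small u g (F v) (G v)) :=
  D1.le ((wl_CF hu hg hF hG).mul ((CF.const 2).pow ((CF.const 2).mul hF)))
    ((CF.const 2).pow (dep_CF hu hF))

omit hu hg in
include h1 h2 in
theorem vis_S1 {n : ℕ} {F G H : (Fin n → ℕ) → ℕ} (hF : CF F) (hG : CF G) (hH : CF H) :
    S1 true (fun v => vis K1 K2 (F v) (G v) (H v)) := by
  refine S1_ex (S1.and (D1.eq ?_ hG.init).pos (D1.eq ?_ hH.init).pos)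
  · exact CF.comp2 h1 hF.init CF.last
  · exact CF.comp2 h2 ((CF.const 3).mul hF.init) CF.last

include h1 h2 in
theorem EE_S1 : S1 true (fun v : Fin 3 → ℕ => EE u g K1 K2 (v 0) (v 1) (v 2)) := by
  have hk : CF (fun v : Fin 3 → ℕ => v 2 / 2 ^ (dep u (v 0) - v 0)) :=
    (CF.var 2).div ((CF.const 2).pow ((dep_CF hu (CF.var 0)).sub (CF.var 0)))
  have hl : CF (fun v : Fin 3 → ℕ => pn u g (dep u (v 0)) (v 2) (3 * v 0)) :=
    pn_CF hu hg (dep_CF hu (CF.var 0)) (CF.var 2) ((CF.const 3).mul (CF.var 0))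
  refine S1.and (D1.eq (CF.var 1) (dep_CF hu (CF.var 0))).pos (S1.and (D1.lt (CF.var 2)
    ((CF.const 2).pow (dep_CF hu (CF.var 0)))).pos (S1.and ?_ (S1.and ?_ ?_)))
  · exact vis_S1 h1 h2 (CF.var 0) hk hl
  · exact (wrong_D1 hu hg (CF.var 0) hk hl).pos
  · exact (small_D1 hu hg (CF.var 0) hl).pos

theorem TT_S1 : S1 true (fun v : Fin 3 → ℕ => TT u g (v 0) (v 1) (v 2)) :=
  (D1.and (D1.eq (CF.var 1) ((CF.const 3).mul (CF.var 0))) (D1.and (D1.lt (CF.var 2)
    ((CF.const 2).pow ((CF.const 3).mul (CF.var 0)))) (small_D1 hu hg (CF.var 0)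
      (CF.var 2)).not)).pos

end computability

/-! ### Prefixes -/

theorem us_mono (u : ℕ → ℕ) : Monotone (us u) := monotone_nat_of_le_succ fun m => by
  change us u m ≤ us u m + u m
  omega

theorem u_le_dep (u : ℕ → ℕ) {i m : ℕ} (h : m < 3 * i) : u m ≤ dep u i := by
  unfold dep
  have h1 : us u (m + 1) ≤ us u (3 * i) := us_mono u h
  have h2 : us u (m + 1) = us u m + u m := rfl
  omega

theorem le_dep (u : ℕ → ℕ) (i : ℕ) : i ≤ dep u i := Nat.le_add_right _ _

theorem dep_mono (u : ℕ → ℕ) : Monotone (dep u) := fun i j h => by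
  unfold dep
  have := us_mono u (show 3 * i ≤ 3 * j by omega)
  omega

theorem pre_div' {z : ℝ} {n m : ℕ} (h : n ≤ m) : pre z m / 2 ^ (m - n) = pre z n := by
  have := pre_div z n (m - n)
  rw [Nat.add_sub_cancel' h] at this
  exact this.symm

theorem PN_eq_pn (u : ℕ → ℕ) (g : ℕ → ℕ → ℕ) (z : ℝ) (D m : ℕ) (h : ∀ n, n < m → u n ≤ D) :
    PN u g z m = pn u g D (pre z D) m := by
  induction m with
  | zero => rfl
  | succ m ih =>
    change 2 * PN u g z m + g m (pre z (u m)) = 2 * pn u g D (pre z D) m +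
      g m (pre z D / 2 ^ (D - u m))
    rw [ih fun n hn => h n (by omega), pre_div' (h m (by omega))]

theorem pn_lt {u : ℕ → ℕ} {g : ℕ → ℕ → ℕ} (hg : ∀ n a, g n a ≤ 1) (D a m : ℕ) :
    pn u g D a m < 2 ^ m := by
  induction m with
  | zero => exact Nat.one_pos
  | succ m ih =>
    change 2 * pn u g D a m + g m (a / 2 ^ (D - u m)) < 2 ^ (m + 1)
    have := hg m (a / 2 ^ (D - u m))
    rw [pow_succ]
    omega

theorem pn_div {u : ℕ → ℕ} {g : ℕ → ℕ → ℕ} (hg : ∀ n a, g n a ≤ 1) (D a m j : ℕ) :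
    pn u g D a (m + j) / 2 ^ j = pn u g D a m := by
  induction j with
  | zero => simp
  | succ j ih =>
    have h1 : pn u g D a (m + (j + 1)) / 2 = pn u g D a (m + j) := by
      change (2 * pn u g D a (m + j) + g (m + j) (a / 2 ^ (D - u (m + j)))) / 2 = _
      have := hg (m + j) (a / 2 ^ (D - u (m + j)))
      omega
    rw [pow_succ', ← Nat.div_div_eq_div_mul, h1, ih]

theorem sib_div (k : ℕ) : sib k / 2 = k / 2 := by
  unfold sib
  split_ifs with h
  · omega
  · omega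

theorem sib_ne (k : ℕ) : sib k ≠ k := by
  unfold sib
  split_ifs with h
  · omega
  · omega

/-! ### Combinatorics -/

section

variable {u : ℕ → ℕ} {g : ℕ → ℕ → ℕ} {K1 K2 : ℕ → ℕ → ℕ} (hg : ∀ n a, g n a ≤ 1)
  (hm1 : ∀ n, Monotone (K1 n)) (hm2 : ∀ n, Monotone (K2 n))
  (hc1 : ∀ n t, K1 n t = K1 (n + 1) t / 2) (hc2 : ∀ n t, K2 n t = K2 (n + 1) t / 2)
  (hb1 : ∀ n t, K1 n t < 2 ^ n)

include hc1 hc2 in
theorem vis_down {i k l : ℕ} (h : vis K1 K2 (i + 1) k l) : vis K1 K2 i (k / 2) (l / 2 ^ 3) := by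
  obtain ⟨t, h1, h2⟩ := h
  refine ⟨t, by rw [hc1, h1], ?_⟩
  have h3 : 3 * (i + 1) = 3 * i + 1 + 1 + 1 := by ring
  rw [h3] at h2
  rw [hc2 (3 * i), hc2 (3 * i + 1), hc2 (3 * i + 1 + 1), h2]
  omega

include hm1 hm2 in
theorem vis_order {i k l k' l' : ℕ} (h : vis K1 K2 i k l) (h' : vis K1 K2 i k' l') (hl : l < l') :
    k ≤ k' := by
  obtain ⟨t, h1, h2⟩ := h
  obtain ⟨t', h1', h2'⟩ := h'
  have : t ≤ t' := by
    by_contra hcon
    push Not at hcon
    have := hm2 (3 * i) hcon.le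
    omega
  have := hm1 i this
  omega

/-- boundary values -/
def Bd (K1 K2 : ℕ → ℕ → ℕ) (i l : ℕ) : Prop := ∃ k k', k < k' ∧ vis K1 K2 i k l ∧ vis K1 K2 i k' l

open Classical in
include hm1 hm2 hb1 in
theorem card_Bd (i M : ℕ) : ((Finset.range M).filter (Bd K1 K2 i)).card ≤ 2 ^ i := by
  classical
  choose! k k' hkk' hk hk' using fun l (h : Bd K1 K2 i l) => h
  have h1 : ∀ l ∈ (Finset.range M).filter (Bd K1 K2 i), k' l ∈ Finset.range (2 ^ i) := by
    intro l hl
    rw [Finset.mem_filter] at hl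
    rw [Finset.mem_range]
    obtain ⟨t, ht, _⟩ := hk' l hl.2
    rw [← ht]
    exact hb1 i t
  have h2 : Set.InjOn k' ((Finset.range M).filter (Bd K1 K2 i) : Set ℕ) := by
    intro l hl l' hl' h
    simp only [Finset.coe_filter, Set.mem_setOf_eq] at hl hl'
    rcases lt_trichotomy l l' with h3 | h3 | h3
    · have h4 := vis_order hm1 hm2 (hk' l hl.2) (hk l' hl'.2) h3
      have h5 := hkk' l' hl'.2
      omega
    · exact h3
    · have h4 := vis_order hm1 hm2 (hk' l' hl'.2) (hk l hl.2) h3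
      have h5 := hkk' l hl.2
      omega
  have h3 := Finset.card_le_card_of_injOn k' h1 h2
  rwa [Finset.card_range] at h3

open Classical in
include hg hm1 hm2 hc1 hc2 hb1 in
theorem core_ineq (i : ℕ) :
    ((Finset.range (2 ^ dep u (i + 1))).filter (cond u g K1 K2 (i + 1))).card +
    ((Finset.range (2 ^ dep u (i + 1))).filter (fun a => vis K1 K2 (i + 1)
      (a / 2 ^ (dep u (i + 1) - (i + 1))) (pn u g (dep u (i + 1)) a (3 * (i + 1))))).card ≤
    ((Finset.range (2 ^ dep u (i + 1))).filter (fun a => vis K1 K2 i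
      (a / 2 ^ (dep u (i + 1) - i)) (pn u g (dep u (i + 1)) a (3 * i)))).card +
      2 ^ (i + 1) * (2 ^ dep u (i + 1) / 2 ^ (2 * (i + 1))) := by
  set D := dep u (i + 1) with hD
  have hDi : i + 1 ≤ D := le_dep u (i + 1)
  have hdiv : ∀ a, a / 2 ^ (D - i) = a / 2 ^ (D - (i + 1)) / 2 := by
    intro a
    rw [Nat.div_div_eq_div_mul, ← pow_succ]
    congr 2
    omega
  have hpd : ∀ a, pn u g D a (3 * i) = pn u g D a (3 * (i + 1)) / 2 ^ 3 := by
    intro a
    have := pn_div (u := u) hg D a (3 * i) 3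
    rw [← this]
    congr 1
  have hmap : ∀ (s : Finset ℕ), Set.MapsTo (fun a => pn u g D a (3 * (i + 1))) (s : Set ℕ)
      (Finset.range (2 ^ (3 * (i + 1))) : Set ℕ) := by
    intro s a _
    simp only [Finset.coe_range, Set.mem_Iio]
    exact pn_lt hg D a _
  rw [Finset.card_eq_sum_card_fiberwise (hmap _), Finset.card_eq_sum_card_fiberwise (hmap _),
    Finset.card_eq_sum_card_fiberwise (hmap _), ← Finset.sum_add_distrib]
  have key : ∀ l ∈ Finset.range (2 ^ (3 * (i + 1))),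
      (((Finset.range (2 ^ D)).filter (cond u g K1 K2 (i + 1))).filter
        (fun a => pn u g D a (3 * (i + 1)) = l)).card +
      (((Finset.range (2 ^ D)).filter (fun a => vis K1 K2 (i + 1)
        (a / 2 ^ (D - (i + 1))) (pn u g D a (3 * (i + 1))))).filter
        (fun a => pn u g D a (3 * (i + 1)) = l)).card ≤
      (((Finset.range (2 ^ D)).filter (fun a => vis K1 K2 i
        (a / 2 ^ (D - i)) (pn u g D a (3 * i)))).filter
        (fun a => pn u g D a (3 * (i + 1)) = l)).card +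
      (if Bd K1 K2 (i + 1) l then 2 ^ D / 2 ^ (2 * (i + 1)) else 0) := by
    intro l _
    have hsub : (((Finset.range (2 ^ D)).filter (fun a => vis K1 K2 (i + 1)
        (a / 2 ^ (D - (i + 1))) (pn u g D a (3 * (i + 1))))).filter
        (fun a => pn u g D a (3 * (i + 1)) = l)) ⊆
        (((Finset.range (2 ^ D)).filter (fun a => vis K1 K2 i
        (a / 2 ^ (D - i)) (pn u g D a (3 * i)))).filter
        (fun a => pn u g D a (3 * (i + 1)) = l)) := by
      intro a
      simp only [Finset.mem_filter]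
      rintro ⟨⟨h1, h2⟩, h3⟩
      refine ⟨⟨h1, ?_⟩, h3⟩
      rw [hdiv, hpd]
      exact vis_down hc1 hc2 h2
    by_cases hE : (((Finset.range (2 ^ D)).filter (cond u g K1 K2 (i + 1))).filter
        (fun a => pn u g D a (3 * (i + 1)) = l)) = ∅
    · rw [hE, Finset.card_empty]
      have := Finset.card_le_card hsub
      omega
    · obtain ⟨a0, ha0⟩ := Finset.nonempty_iff_ne_empty.2 hE
      simp only [Finset.mem_filter, Finset.mem_range] at ha0
      obtain ⟨⟨ha0D, hvis, hwrong, hsmall⟩, hl0⟩ := ha0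
      rw [← hD, hl0] at hvis hwrong
      rw [← hD, hl0] at hsmall
      by_cases hB : Bd K1 K2 (i + 1) l
      · rw [if_pos hB]
        have h1 : (((Finset.range (2 ^ D)).filter (cond u g K1 K2 (i + 1))).filter
            (fun a => pn u g D a (3 * (i + 1)) = l)).card ≤ wl u g (i + 1) l := by
          unfold wl
          rw [Nat.count_eq_card_filter_range]
          refine Finset.card_le_card fun a => ?_
          simp only [Finset.mem_filter]
          rintro ⟨⟨h1, _⟩, h3⟩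
          exact ⟨h1, h3⟩
        have h2 : wl u g (i + 1) l ≤ 2 ^ D / 2 ^ (2 * (i + 1)) := by
          rw [Nat.le_div_iff_mul_le (by positivity)]
          exact hsmall
        have := Finset.card_le_card hsub
        omega
      · rw [if_neg hB, Nat.add_zero]
        set k := a0 / 2 ^ (D - (i + 1)) with hk
        have huniq : ∀ k', vis K1 K2 (i + 1) k' l → k' = k := by
          intro k' hk'
          by_contra hne
          apply hB
          rcases Nat.lt_or_gt_of_ne hne with h | h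
          · exact ⟨k', k, h, hk', hvis⟩
          · exact ⟨k, k', h, hvis, hk'⟩
        have h1 : (((Finset.range (2 ^ D)).filter (cond u g K1 K2 (i + 1))).filter
            (fun a => pn u g D a (3 * (i + 1)) = l)).card ≤ wt u g (i + 1) k l := by
          unfold wt
          rw [Nat.count_eq_card_filter_range]
          refine Finset.card_le_card fun a => ?_
          simp only [Finset.mem_filter]
          rintro ⟨⟨h1, h2, _⟩, h3⟩
          rw [← hD, h3] at h2
          exact ⟨h1, huniq _ h2, h3⟩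
        have h2 : (((Finset.range (2 ^ D)).filter (fun a => a / 2 ^ (D - (i + 1)) = sib k ∧
            pn u g D a (3 * (i + 1)) = l)) ∪
            (((Finset.range (2 ^ D)).filter (fun a => vis K1 K2 (i + 1)
            (a / 2 ^ (D - (i + 1))) (pn u g D a (3 * (i + 1))))).filter
            (fun a => pn u g D a (3 * (i + 1)) = l))) ⊆
            (((Finset.range (2 ^ D)).filter (fun a => vis K1 K2 i
            (a / 2 ^ (D - i)) (pn u g D a (3 * i)))).filter
            (fun a => pn u g D a (3 * (i + 1)) = l)) := by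
          refine Finset.union_subset ?_ hsub
          intro a
          simp only [Finset.mem_filter]
          rintro ⟨h1, h2, h3⟩
          refine ⟨⟨h1, ?_⟩, h3⟩
          rw [hdiv, hpd, h2, h3, sib_div]
          exact vis_down hc1 hc2 hvis
        have h3 : Disjoint ((Finset.range (2 ^ D)).filter (fun a => a / 2 ^ (D - (i + 1)) = sib k ∧
            pn u g D a (3 * (i + 1)) = l))
            (((Finset.range (2 ^ D)).filter (fun a => vis K1 K2 (i + 1)
            (a / 2 ^ (D - (i + 1))) (pn u g D a (3 * (i + 1))))).filter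
            (fun a => pn u g D a (3 * (i + 1)) = l)) := by
          rw [Finset.disjoint_left]
          intro a
          simp only [Finset.mem_filter]
          rintro ⟨_, h2, h3⟩ ⟨⟨_, h4⟩, _⟩
          rw [h3] at h4
          have := huniq _ h4
          rw [h2] at this
          exact sib_ne k this
        have h4 := Finset.card_le_card h2
        rw [Finset.card_union_of_disjoint h3] at h4
        have h5 : wt u g (i + 1) (sib k) l =
            ((Finset.range (2 ^ D)).filter (fun a => a / 2 ^ (D - (i + 1)) = sib k ∧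
            pn u g D a (3 * (i + 1)) = l)).card := by
          unfold wt
          rw [Nat.count_eq_card_filter_range]
        have h6 : wt u g (i + 1) k l ≤ wt u g (i + 1) (sib k) l := hwrong
        omega
  refine (Finset.sum_le_sum key).trans ?_
  rw [Finset.sum_add_distrib]
  refine Nat.add_le_add_left ?_ _
  rw [← Finset.sum_filter, Finset.sum_const, smul_eq_mul]
  exact Nat.mul_le_mul_right _ (card_Bd hm1 hm2 hb1 (i + 1) _)

end

end Pool.Agent.Helper626.Rand
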