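import Pool.Agent.Helper626.Rand.TT

/-!
Truth-table reductions between left-c.e. random reals: measures.
-/

namespace Pool.Agent.Helper626.Rand

open Pool.Agent.Helper626 MeasureTheory

variable {u : ℕ → ℕ} {g : ℕ → ℕ → ℕ} {K1 K2 : ℕ → ℕ → ℕ}

/-- visited reals -/
def VisSet (u : ℕ → ℕ) (g : ℕ → ℕ → ℕ) (K1 K2 : ℕ → ℕ → ℕ) (i : ℕ) : Set ℝ :=
  {z | 0 ≤ z ∧ z < 1 ∧ vis K1 K2 i (pre z i) (PN u g z (3 * i))}

theorem VisSet_eq {i D : ℕ} (h : dep u i ≤ D) : VisSet u g K1 K2 i =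
    clo D (fun a => vis K1 K2 i (a / 2 ^ (D - i)) (pn u g D a (3 * i))) := by
  ext z
  simp only [VisSet, clo, Set.mem_setOf_eq]
  rw [pre_div' ((le_dep u i).trans h), PN_eq_pn u g z D (3 * i)
    fun n hn => (u_le_dep u hn).trans h]

theorem comp_EE (i : ℕ) : comp (EE u g K1 K2) i = clo (dep u i) (cond u g K1 K2 i) := by
  ext z
  simp only [comp, clo, EE, Set.mem_setOf_eq]
  constructor
  · rintro ⟨n, a, ⟨rfl, ha, hc⟩, hz⟩
    have h0 := dyadic_nonneg hz
    have h1 := (mem_dyadic_iff h0 _ _).1 hz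
    refine ⟨h0, ?_, by rw [h1]; exact hc⟩
    unfold dyadic at hz
    refine hz.2.trans_le ?_
    rw [div_le_one (by positivity)]
    exact_mod_cast ha
  · rintro ⟨h0, h1, h2⟩
    exact ⟨_, _, ⟨rfl, pre_lt h1 _, h2⟩, (mem_dyadic_iff h0 _ _).2 rfl⟩

theorem comp_TT (i : ℕ) : comp (TT u g) i = clo (3 * i) (fun b => ¬ small u g i b) := by
  ext z
  simp only [comp, clo, TT, Set.mem_setOf_eq]
  constructor
  · rintro ⟨n, a, ⟨rfl, ha, hc⟩, hz⟩
    have h0 := dyadic_nonneg hz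
    have h1 := (mem_dyadic_iff h0 _ _).1 hz
    refine ⟨h0, ?_, by rw [h1]; exact hc⟩
    unfold dyadic at hz
    refine hz.2.trans_le ?_
    rw [div_le_one (by positivity)]
    exact_mod_cast ha
  · rintro ⟨h0, h1, h2⟩
    exact ⟨_, _, ⟨rfl, pre_lt h1 _, h2⟩, (mem_dyadic_iff h0 _ _).2 rfl⟩

theorem half_pow_mul (D : ℕ) : (2 : ℝ) ^ D * (1 / 2) ^ D = 1 := by
  rw [← mul_pow]
  norm_num

theorem volume_clo_le_one (n : ℕ) (P : ℕ → Prop) : volume (clo n P) ≤ 1 := by
  classical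
  rw [volume_clo, ← ENNReal.ofReal_one]
  refine ENNReal.ofReal_le_ofReal ?_
  have h1 : (Nat.count P (2 ^ n) : ℝ) ≤ 2 ^ n := by
    have : Nat.count P (2 ^ n) ≤ 2 ^ n := Nat.count_le _
    exact_mod_cast this
  have h2 := half_pow_mul n
  have h3 : (0 : ℝ) < (1 / 2) ^ n := by positivity
  nlinarith

theorem step_volume (hg : ∀ n a, g n a ≤ 1)
    (hm1 : ∀ n, Monotone (K1 n)) (hm2 : ∀ n, Monotone (K2 n))
    (hc1 : ∀ n t, K1 n t = K1 (n + 1) t / 2) (hc2 : ∀ n t, K2 n t = K2 (n + 1) t / 2)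
    (hb1 : ∀ n t, K1 n t < 2 ^ n) (i : ℕ) :
    volume (comp (EE u g K1 K2) (i + 1)) + volume (VisSet u g K1 K2 (i + 1)) ≤
      volume (VisSet u g K1 K2 i) + ENNReal.ofReal ((1 / 2) ^ (i + 1)) := by
  classical
  rw [comp_EE, VisSet_eq (le_refl (dep u (i + 1))), VisSet_eq (dep_mono u (Nat.le_succ i)),
    volume_clo, volume_clo, volume_clo, ← ENNReal.ofReal_add (by positivity) (by positivity),
    ← ENNReal.ofReal_add (by positivity) (by positivity)]
  refine ENNReal.ofReal_le_ofReal ?_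
  have h := core_ineq (u := u) hg hm1 hm2 hc1 hc2 hb1 i
  rw [← Nat.count_eq_card_filter_range, ← Nat.count_eq_card_filter_range,
    ← Nat.count_eq_card_filter_range] at h
  set D := dep u (i + 1)
  set A := Nat.count (cond u g K1 K2 (i + 1)) (2 ^ D)
  set B := Nat.count (fun a => vis K1 K2 (i + 1)
      (a / 2 ^ (D - (i + 1))) (pn u g D a (3 * (i + 1)))) (2 ^ D)
  set C := Nat.count (fun a => vis K1 K2 i
      (a / 2 ^ (D - i)) (pn u g D a (3 * i))) (2 ^ D)
  have h1 : (A : ℝ) + B ≤ C + 2 ^ (i + 1) * (2 ^ D / 2 ^ (2 * (i + 1))) := by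
    have h2 : ((A + B : ℕ) : ℝ) ≤ ((C + 2 ^ (i + 1) * (2 ^ D / 2 ^ (2 * (i + 1))) : ℕ) : ℝ) := by
      exact_mod_cast h
    push_cast at h2
    refine h2.trans ?_
    have h3 : ((2 ^ D / 2 ^ (2 * (i + 1)) : ℕ) : ℝ) ≤ (2 : ℝ) ^ D / 2 ^ (2 * (i + 1)) := by
      have := @Nat.cast_div_le ℝ _ _ _ (2 ^ D) (2 ^ (2 * (i + 1)))
      push_cast at this
      exact this
    have h4 : (0 : ℝ) < 2 ^ (i + 1) := by positivity
    nlinarith
  have h5 : (0 : ℝ) < (1 / 2) ^ D := by positivity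
  have h6 : (A : ℝ) * (1 / 2) ^ D + B * (1 / 2) ^ D ≤
      (C + 2 ^ (i + 1) * (2 ^ D / 2 ^ (2 * (i + 1)))) * (1 / 2) ^ D := by
    have := mul_le_mul_of_nonneg_right h1 h5.le
    linarith
  refine h6.trans (le_of_eq ?_)
  have h7 : (2 : ℝ) ^ (i + 1) * (2 ^ D / 2 ^ (2 * (i + 1))) * (1 / 2) ^ D =
      (2 ^ D * (1 / 2) ^ D) * (2 ^ (i + 1) / 2 ^ (2 * (i + 1))) := by ring
  rw [add_mul, h7, half_pow_mul]
  have h8 : (2 : ℝ) ^ (i + 1) / 2 ^ (2 * (i + 1)) = (1 / 2) ^ (i + 1) := by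
    rw [two_mul, pow_add 2 (i + 1) (i + 1), one_div, inv_pow]
    field_simp
  rw [h8]
  ring

theorem sum_EE (hg : ∀ n a, g n a ≤ 1)
    (hm1 : ∀ n, Monotone (K1 n)) (hm2 : ∀ n, Monotone (K2 n))
    (hc1 : ∀ n t, K1 n t = K1 (n + 1) t / 2) (hc2 : ∀ n t, K2 n t = K2 (n + 1) t / 2)
    (hb1 : ∀ n t, K1 n t < 2 ^ n) :
    ∑' i, volume (comp (EE u g K1 K2) i) ≤ ((3 : ℕ) : ENNReal) := by
  have h1 : ∀ n, ∑ i ∈ Finset.range n, volume (comp (EE u g K1 K2) (i + 1)) +
      volume (VisSet u g K1 K2 n) ≤ ENNReal.ofReal (2 - (1 / 2) ^ n) := by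
    intro n
    induction n with
    | zero =>
      rw [Finset.sum_range_zero, zero_add, VisSet_eq (le_refl (dep u 0))]
      refine (volume_clo_le_one _ _).trans ?_
      norm_num
    | succ n ih =>
      rw [Finset.sum_range_succ, add_assoc]
      have h2 := step_volume (u := u) hg hm1 hm2 hc1 hc2 hb1 n
      calc _ ≤ ∑ i ∈ Finset.range n, volume (comp (EE u g K1 K2) (i + 1)) +
            (volume (VisSet u g K1 K2 n) + ENNReal.ofReal ((1 / 2) ^ (n + 1))) := by gcongr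
        _ ≤ ENNReal.ofReal (2 - (1 / 2) ^ n) + ENNReal.ofReal ((1 / 2) ^ (n + 1)) := by
            rw [← add_assoc]
            gcongr
        _ = ENNReal.ofReal (2 - (1 / 2) ^ (n + 1)) := by
            rw [← ENNReal.ofReal_add _ (by positivity)]
            · congr 1
              rw [pow_succ]
              ring
            · have : ((1 : ℝ) / 2) ^ n ≤ 1 := pow_le_one₀ (by norm_num) (by norm_num)
              linarith
  have h2 : ∑' i, volume (comp (EE u g K1 K2) (i + 1)) ≤ 2 := by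
    refine ENNReal.tsum_le_of_sum_range_le fun n => ?_
    have h3 : ENNReal.ofReal (2 - (1 / 2) ^ n) ≤ 2 := by
      rw [show (2 : ENNReal) = ENNReal.ofReal 2 by simp]
      refine ENNReal.ofReal_le_ofReal ?_
      have : (0 : ℝ) < (1 / 2) ^ n := by positivity
      linarith
    exact le_self_add.trans ((h1 n).trans h3)
  rw [tsum_eq_zero_add' ENNReal.summable]
  have h3 : volume (comp (EE u g K1 K2) 0) ≤ 1 := by
    rw [comp_EE]
    exact volume_clo_le_one _ _
  calc _ ≤ (1 : ENNReal) + 2 := add_le_add h3 h2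
    _ = _ := by norm_num

theorem sum_TT (hg : ∀ n a, g n a ≤ 1) :
    ∑' i, volume (comp (TT u g) i) ≤ ((2 : ℕ) : ENNReal) := by
  classical
  have h1 : ∀ i, volume (comp (TT u g) i) ≤ ENNReal.ofReal ((1 / 2) ^ i) := by
    intro i
    rw [comp_TT, volume_clo]
    refine ENNReal.ofReal_le_ofReal ?_
    have h2 : Nat.count (fun b => ¬ small u g i b) (2 ^ (3 * i)) ≤ 2 ^ (2 * i) := by
      rw [Nat.count_eq_card_filter_range]
      set S := (Finset.range (2 ^ (3 * i))).filter (fun b => ¬ small u g i b)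
      have h3 : ∑ b ∈ S, 2 ^ dep u i ≤ ∑ b ∈ S, wl u g i b * 2 ^ (2 * i) := by
        refine Finset.sum_le_sum fun b hb => ?_
        have h4 := (Finset.mem_filter.1 hb).2
        unfold small at h4
        omega
      have h4 : ∑ b ∈ S, wl u g i b ≤ 2 ^ dep u i := by
        have h5 : ∑ b ∈ S, wl u g i b ≤ ∑ b ∈ Finset.range (2 ^ (3 * i)), wl u g i b :=
          Finset.sum_le_sum_of_subset (Finset.filter_subset _ _)
        refine h5.trans (le_of_eq ?_)
        have h6 := Finset.card_eq_sum_card_fiberwise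
          (f := fun a => pn u g (dep u i) a (3 * i)) (s := Finset.range (2 ^ dep u i))
          (t := Finset.range (2 ^ (3 * i))) (by
            intro a _
            simp only [Finset.coe_range, Set.mem_Iio]
            exact pn_lt hg _ a _)
        rw [Finset.card_range] at h6
        rw [h6]
        refine Finset.sum_congr rfl fun b _ => ?_
        unfold wl
        rw [Nat.count_eq_card_filter_range]
      rw [Finset.sum_const, smul_eq_mul, ← Finset.sum_mul] at h3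
      have h5 : 0 < 2 ^ dep u i := by positivity
      have h6 : S.card * 2 ^ dep u i ≤ 2 ^ (2 * i) * 2 ^ dep u i := by
        calc _ ≤ (∑ b ∈ S, wl u g i b) * 2 ^ (2 * i) := h3
          _ ≤ 2 ^ dep u i * 2 ^ (2 * i) := Nat.mul_le_mul_right _ h4
          _ = _ := Nat.mul_comm _ _
      exact Nat.le_of_mul_le_mul_right h6 h5
    have h3 : (Nat.count (fun b => ¬ small u g i b) (2 ^ (3 * i)) : ℝ) ≤ 2 ^ (2 * i) := by
      exact_mod_cast h2
    have h4 : ((1 : ℝ) / 2) ^ (3 * i) = (1 / 2) ^ (2 * i) * (1 / 2) ^ i := by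
      rw [← pow_add]
      congr 1
      ring
    rw [h4, ← mul_assoc]
    have h5 := half_pow_mul (2 * i)
    have h6 : (0 : ℝ) < (1 / 2) ^ (2 * i) := by positivity
    have h7 : (0 : ℝ) < (1 / 2) ^ i := by positivity
    have h8 : (Nat.count (fun b => ¬ small u g i b) (2 ^ (3 * i)) : ℝ) * (1 / 2) ^ (2 * i) ≤ 1 := by
      nlinarith
    nlinarith
  calc ∑' i, volume (comp (TT u g) i) ≤ ∑' i, ENNReal.ofReal ((1 / 2) ^ i) :=
        ENNReal.tsum_le_tsum h1
    _ = ENNReal.ofReal (∑' i : ℕ, ((1 : ℝ) / 2) ^ i) :=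
        (ENNReal.ofReal_tsum_of_nonneg (fun _ => by positivity) summable_geometric_two).symm
    _ = _ := by
        rw [tsum_geometric_two]
        norm_num

end Pool.Agent.Helper626.Rand
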