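import Pool.Agent.Helper626.NatH

/-!
Tools: functions and relations on the natural numbers with c.e. graph.
-/

namespace Pool.Agent.Helper626.Rand

open Pool.Agent.Helper626

theorem S1_of_iff {n : ℕ} {P Q : (Fin n → ℕ) → Prop} (h : S1 true P) (H : ∀ v, Q v ↔ P v) :
    S1 true Q := h.of_iff H

theorem S1_all_fin {n : ℕ} : ∀ {r : ℕ} {Q : Fin r → (Fin n → ℕ) → Prop},
    (∀ i, S1 true (Q i)) → S1 true (fun v => ∀ i, Q i v)
  | 0, Q, _ => (D0.tru.of_iff (e := true) fun v => by simp).s1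
  | r + 1, Q, h => by
    refine ((S1_all_fin (Q := fun i => Q (Fin.castSucc i)) (fun i => h _)).and
      (h (Fin.last r))).of_iff fun v => ?_
    constructor
    · intro h
      exact ⟨fun i => h _, h _⟩
    · rintro ⟨h1, h2⟩ i
      exact Fin.lastCases h2 h1 i

theorem append_zero' {n : ℕ} (v : Fin n → ℕ) (w : Fin 0 → ℕ) : Fin.append v w = v := by
  funext i
  have := Fin.append_left v w i
  exact this

theorem S1_exb {n : ℕ} : ∀ (r : ℕ) {P : (Fin (n + r) → ℕ) → Prop}, S1 true P →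
    S1 true (fun v : Fin n → ℕ => ∃ w : Fin r → ℕ, P (Fin.append v w))
  | 0, P, h => by
    refine S1.of_iff (P := P) h fun v => ?_
    constructor
    · rintro ⟨w, hw⟩
      rwa [append_zero'] at hw
    · intro h
      refine ⟨Fin.elim0, ?_⟩
      rwa [append_zero']
  | r + 1, P, h => by
    have h1 : S1 true (fun v : Fin (n + r) → ℕ => ∃ x, P (Fin.snoc v x : Fin (n + r + 1) → ℕ)) := by
      refine S1.ex (Q := fun v x => P (Fin.snoc v x : Fin (n + r + 1) → ℕ)) ?_
      refine S1.of_iff (P := P) h fun w => ?_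
      rw [Fin.snoc_init_self]
    refine (S1_exb r h1).of_iff fun v => ?_
    constructor
    · rintro ⟨w, hw⟩
      refine ⟨Fin.init w, w (Fin.last r), ?_⟩
      rw [← append_snoc', Fin.snoc_init_self]
      exact hw
    · rintro ⟨w, x, hw⟩
      refine ⟨Fin.snoc w x, ?_⟩
      rw [append_snoc']
      exact hw

/-- functions with c.e. graph -/
def CF {n : ℕ} (F : (Fin n → ℕ) → ℕ) : Prop :=
  S1 true (fun w : Fin (n + 1) → ℕ => F (Fin.init w) = w (Fin.last n))

theorem CF.term {n : ℕ} {t : (Fin n → ℕ) → ℕ} (h : T0 true t) : CF t :=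
  S1.eq h.init T0.last

theorem CF.of_eq {n : ℕ} {F G : (Fin n → ℕ) → ℕ} (h : CF F) (H : ∀ v, G v = F v) : CF G := by
  have : G = F := funext H
  rw [this]
  exact h

theorem CF.graph {n m : ℕ} {F : (Fin n → ℕ) → ℕ} (h : CF F) {s : Fin n → (Fin m → ℕ) → ℕ}
    {t : (Fin m → ℕ) → ℕ} (hs : ∀ i, T0 true (s i)) (ht : T0 true t) :
    S1 true (fun v => F (fun i => s i v) = t v) := by
  have := S1.comp (n := m) h (t := Fin.snoc (α := fun _ => (Fin m → ℕ) → ℕ) s t) (by
    intro i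
    refine Fin.lastCases ?_ (fun i => ?_) i
    · simpa using ht
    · simpa using hs i)
  refine this.of_iff fun v => ?_
  simp [Fin.init_def]

/-- substitution of functions with c.e. graph -/
theorem S1_sub {n m : ℕ} {P : (Fin m → ℕ) → Prop} (hP : S1 true P)
    {F : Fin m → (Fin n → ℕ) → ℕ} (hF : ∀ i, CF (F i)) : S1 true (fun v => P (fun i => F i v)) := by
  have h1 : S1 true (fun w : Fin (n + m) → ℕ => P (fun i => w (Fin.natAdd n i)) ∧
      ∀ i : Fin m, F i (fun j => w (Fin.castAdd m j)) = w (Fin.natAdd n i)) := by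
    refine S1.and ?_ (S1_all_fin fun i => ?_)
    · exact hP.comp (t := fun i w => w (Fin.natAdd n i)) (fun i => T0.var _)
    · exact (hF i).graph (s := fun j w => w (Fin.castAdd m j)) (fun j => T0.var _) (T0.var _)
  refine (S1_exb m h1).of_iff fun v => ?_
  simp only [Fin.append_right, Fin.append_left]
  constructor
  · intro h
    exact ⟨fun i => F i v, h, fun i => rfl⟩
  · rintro ⟨w, hw, h⟩
    have : (fun i => F i v) = w := funext h
    rw [this]
    exact hw

theorem CF.comp {n m : ℕ} {G : (Fin m → ℕ) → ℕ} (hG : CF G)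
    {F : Fin m → (Fin n → ℕ) → ℕ} (hF : ∀ i, CF (F i)) : CF (fun v => G (fun i => F i v)) := by
  have hF' : ∀ i : Fin (m + 1), CF (n := n + 1)
      ((Fin.snoc (α := fun _ => (Fin (n + 1) → ℕ) → ℕ) (fun i w => F i (Fin.init w))
        (fun w => w (Fin.last n)) : Fin (m + 1) → (Fin (n + 1) → ℕ) → ℕ) i) := by
    intro i
    refine Fin.lastCases ?_ (fun i => ?_) i
    · simp only [Fin.snoc_last]
      exact CF.term T0.last
    · simp only [Fin.snoc_castSucc]
      exact (hF i).graph (s := fun j w => w j.castSucc.castSucc) (fun j => T0.var _) T0.last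
  refine (S1_sub hG hF').of_iff fun w => ?_
  simp [Fin.init_def]

theorem CF.comp1 {n : ℕ} {h : ℕ → ℕ} (hh : CF (fun v : Fin 1 → ℕ => h (v 0)))
    {F : (Fin n → ℕ) → ℕ} (hF : CF F) : CF (fun v => h (F v)) :=
  hh.comp (F := ![F]) (by
    intro i
    fin_cases i
    exact hF)

theorem CF.comp2 {n : ℕ} {h : ℕ → ℕ → ℕ} (hh : CF (fun v : Fin 2 → ℕ => h (v 0) (v 1)))
    {F G : (Fin n → ℕ) → ℕ} (hF : CF F) (hG : CF G) : CF (fun v => h (F v) (G v)) :=
  hh.comp (F := ![F, G]) (by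
    intro i
    fin_cases i
    · exact hF
    · exact hG)

theorem CF.comp3 {n : ℕ} {h : ℕ → ℕ → ℕ → ℕ} (hh : CF (fun v : Fin 3 → ℕ => h (v 0) (v 1) (v 2)))
    {F G H : (Fin n → ℕ) → ℕ} (hF : CF F) (hG : CF G) (hH : CF H) :
    CF (fun v => h (F v) (G v) (H v)) :=
  hh.comp (F := ![F, G, H]) (by
    intro i
    fin_cases i
    · exact hF
    · exact hG
    · exact hH)

theorem CF.comp4 {n : ℕ} {h : ℕ → ℕ → ℕ → ℕ → ℕ}
    (hh : CF (fun v : Fin 4 → ℕ => h (v 0) (v 1) (v 2) (v 3)))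
    {F G H K : (Fin n → ℕ) → ℕ} (hF : CF F) (hG : CF G) (hH : CF H) (hK : CF K) :
    CF (fun v => h (F v) (G v) (H v) (K v)) :=
  hh.comp (F := ![F, G, H, K]) (by
    intro i
    fin_cases i
    · exact hF
    · exact hG
    · exact hH
    · exact hK)

theorem CF.var {n : ℕ} (i : Fin n) : CF (fun v : Fin n → ℕ => v i) := CF.term (T0.var i)

theorem CF.const {n : ℕ} (k : ℕ) : CF (fun _ : Fin n → ℕ => k) := CF.term (T0.const k)

theorem CF.add {n : ℕ} {F G : (Fin n → ℕ) → ℕ} (hF : CF F) (hG : CF G) :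
    CF (fun v => F v + G v) :=
  CF.comp2 (h := fun a b => a + b) (CF.term ((T0.var 0).add (T0.var 1))) hF hG

theorem CF.mul {n : ℕ} {F G : (Fin n → ℕ) → ℕ} (hF : CF F) (hG : CF G) :
    CF (fun v => F v * G v) :=
  CF.comp2 (h := fun a b => a * b) (CF.term ((T0.var 0).mul (T0.var 1))) hF hG

theorem CF.pow {n : ℕ} {F G : (Fin n → ℕ) → ℕ} (hF : CF F) (hG : CF G) :
    CF (fun v => F v ^ G v) :=
  CF.comp2 (h := fun a b => a ^ b) (CF.term (T0.pow rfl (T0.var 0) (T0.var 1))) hF hG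

theorem CF.init {n : ℕ} {F : (Fin n → ℕ) → ℕ} (hF : CF F) :
    CF (fun w : Fin (n + 1) → ℕ => F (Fin.init w)) :=
  hF.comp (F := fun i w => w i.castSucc) (fun i => CF.var _)

theorem CF.last {n : ℕ} : CF (fun w : Fin (n + 1) → ℕ => w (Fin.last n)) := CF.var _

/-- decidable relations -/
structure D1 {n : ℕ} (P : (Fin n → ℕ) → Prop) : Prop where
  pos : S1 true P
  neg : S1 true (fun v => ¬ P v)

theorem D1.of_iff {n : ℕ} {P Q : (Fin n → ℕ) → Prop} (h : D1 P) (H : ∀ v, Q v ↔ P v) : D1 Q := by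
  have : Q = P := funext fun v => propext (H v)
  rw [this]
  exact h

theorem D1.of_D0 {n : ℕ} {P : (Fin n → ℕ) → Prop} (h : D0 true P) : D1 P := ⟨h.s1, h.not.s1⟩

theorem D1.not {n : ℕ} {P : (Fin n → ℕ) → Prop} (h : D1 P) : D1 (fun v => ¬ P v) :=
  ⟨h.neg, h.pos.of_iff fun v => not_not⟩

theorem D1.and {n : ℕ} {P Q : (Fin n → ℕ) → Prop} (h : D1 P) (h' : D1 Q) :
    D1 (fun v => P v ∧ Q v) :=
  ⟨h.pos.and h'.pos, (h.neg.or h'.neg).of_iff fun v => by tauto⟩

theorem D1.or {n : ℕ} {P Q : (Fin n → ℕ) → Prop} (h : D1 P) (h' : D1 Q) :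
    D1 (fun v => P v ∨ Q v) :=
  ⟨h.pos.or h'.pos, (h.neg.and h'.neg).of_iff fun v => by tauto⟩

theorem D1.imp {n : ℕ} {P Q : (Fin n → ℕ) → Prop} (h : D1 P) (h' : D1 Q) :
    D1 (fun v => P v → Q v) :=
  (h.not.or h').of_iff fun v => by tauto

theorem D1.sub {n m : ℕ} {P : (Fin m → ℕ) → Prop} (hP : D1 P)
    {F : Fin m → (Fin n → ℕ) → ℕ} (hF : ∀ i, CF (F i)) : D1 (fun v => P (fun i => F i v)) :=
  ⟨S1_sub hP.pos hF, S1_sub hP.neg hF⟩

theorem D1.rel2 {n : ℕ} {P : ℕ → ℕ → Prop} (hP : D1 (fun v : Fin 2 → ℕ => P (v 0) (v 1)))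
    {F G : (Fin n → ℕ) → ℕ} (hF : CF F) (hG : CF G) : D1 (fun v => P (F v) (G v)) :=
  hP.sub (F := ![F, G]) (by
    intro i
    fin_cases i
    · exact hF
    · exact hG)

theorem D1.rel3 {n : ℕ} {P : ℕ → ℕ → ℕ → Prop}
    (hP : D1 (fun v : Fin 3 → ℕ => P (v 0) (v 1) (v 2)))
    {F G H : (Fin n → ℕ) → ℕ} (hF : CF F) (hG : CF G) (hH : CF H) :
    D1 (fun v => P (F v) (G v) (H v)) :=
  hP.sub (F := ![F, G, H]) (by
    intro i
    fin_cases i
    · exact hF
    · exact hG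
    · exact hH)

theorem D1.eq {n : ℕ} {F G : (Fin n → ℕ) → ℕ} (hF : CF F) (hG : CF G) :
    D1 (fun v => F v = G v) :=
  D1.rel2 (P := fun a b => a = b) (D1.of_D0 (D0.eq (T0.var 0) (T0.var 1))) hF hG

theorem D1.lt {n : ℕ} {F G : (Fin n → ℕ) → ℕ} (hF : CF F) (hG : CF G) :
    D1 (fun v => F v < G v) :=
  D1.rel2 (P := fun a b => a < b) (D1.of_D0 (D0.lt (T0.var 0) (T0.var 1))) hF hG

theorem D1.le {n : ℕ} {F G : (Fin n → ℕ) → ℕ} (hF : CF F) (hG : CF G) :
    D1 (fun v => F v ≤ G v) :=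
  D1.rel2 (P := fun a b => a ≤ b) (D1.of_D0 (D0.le (T0.var 0) (T0.var 1))) hF hG

/-- bounded quantification, bound a function with c.e. graph -/
theorem S1_ball {n : ℕ} {F : (Fin n → ℕ) → ℕ} {Q : (Fin n → ℕ) → ℕ → Prop} (hF : CF F)
    (h : S1 true (fun w : Fin (n + 1) → ℕ => Q (Fin.init w) (w (Fin.last n)))) :
    S1 true (fun v => ∀ x, x < F v → Q v x) := by
  have h1 : S1 true (fun w : Fin (n + 1) → ℕ => ∀ x, x < w (Fin.last n) → Q (Fin.init w) x) := by
    refine S1.ball T0.last ?_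
    refine (h.comp (t := Fin.snoc (α := fun _ => (Fin (n + 1 + 1) → ℕ) → ℕ)
      (fun (i : Fin n) (w : Fin (n + 1 + 1) → ℕ) => w i.castSucc.castSucc)
      (fun w => w (Fin.last (n + 1)))) ?_).of_iff fun w => ?_
    · intro i
      refine Fin.lastCases ?_ (fun i => ?_) i
      · simp only [Fin.snoc_last]; exact T0.var _
      · simp only [Fin.snoc_castSucc]; exact T0.var _
    · simp [Fin.init_def]
  have h2 := S1_sub h1 (n := n) (F := Fin.snoc (α := fun _ => (Fin n → ℕ) → ℕ)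
    (fun (i : Fin n) (v : Fin n → ℕ) => v i) F) (by
      intro i
      refine Fin.lastCases ?_ (fun i => ?_) i
      · simp only [Fin.snoc_last]; exact hF
      · simp only [Fin.snoc_castSucc]; exact CF.var _)
  refine h2.of_iff fun v => ?_
  simp [Fin.init_def]

theorem S1_ex {n : ℕ} {Q : (Fin n → ℕ) → ℕ → Prop}
    (h : S1 true (fun w : Fin (n + 1) → ℕ => Q (Fin.init w) (w (Fin.last n)))) :
    S1 true (fun v => ∃ x, Q v x) := S1.ex h

theorem D1.ball {n : ℕ} {F : (Fin n → ℕ) → ℕ} {Q : (Fin n → ℕ) → ℕ → Prop} (hF : CF F)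
    (h : D1 (fun w : Fin (n + 1) → ℕ => Q (Fin.init w) (w (Fin.last n)))) :
    D1 (fun v => ∀ x, x < F v → Q v x) := by
  refine ⟨S1_ball hF h.pos, ?_⟩
  refine (S1_ex (Q := fun v x => x < F v ∧ ¬ Q v x)
    (S1.and (D1.lt CF.last hF.init).pos h.neg)).of_iff fun v => ?_
  push Not
  rfl

theorem D1.bex {n : ℕ} {F : (Fin n → ℕ) → ℕ} {Q : (Fin n → ℕ) → ℕ → Prop} (hF : CF F)
    (h : D1 (fun w : Fin (n + 1) → ℕ => Q (Fin.init w) (w (Fin.last n)))) :
    D1 (fun v => ∃ x, x < F v ∧ Q v x) :=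
  (D1.ball (Q := fun v x => ¬ Q v x) hF h.not).not.of_iff fun v => by
    push Not
    rfl

/-- a function with decidable graph -/
theorem CF.of_D1 {n : ℕ} {F : (Fin n → ℕ) → ℕ}
    (h : D1 (fun w : Fin (n + 1) → ℕ => F (Fin.init w) = w (Fin.last n))) : CF F := h.pos

theorem CF.ite {n : ℕ} {P : (Fin n → ℕ) → Prop} [DecidablePred P] (hP : D1 P)
    {F G : (Fin n → ℕ) → ℕ} (hF : CF F) (hG : CF G) :
    CF (fun v => if P v then F v else G v) := by
  unfold CF
  have hi : ∀ {P : (Fin n → ℕ) → Prop}, S1 true P →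
      S1 true (fun w : Fin (n + 1) → ℕ => P (Fin.init w)) := fun h =>
    h.comp (t := fun i w => w i.castSucc) (fun i => T0.var _)
  refine (S1.or (S1.and (hi hP.pos) hF) (S1.and (hi hP.neg) hG)).of_iff fun w => ?_
  by_cases h : P (Fin.init w)
  · simp [h]
  · simp [h]

theorem CF.div {n : ℕ} {F G : (Fin n → ℕ) → ℕ} (hF : CF F) (hG : CF G) :
    CF (fun v => F v / G v) := by
  refine CF.comp2 (h := fun a b => a / b) ?_ hF hG
  unfold CF
  refine (S1.or (D0.and (D0.eq (T0.var 1) T0.zero) (D0.eq (T0.var 2) T0.zero)).s1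
    (D0.and (D0.lt T0.zero (T0.var 1)) (D0.and (D0.le ((T0.var 2).mul (T0.var 1)) (T0.var 0))
      (D0.lt (T0.var 0) (((T0.var 2).add T0.one).mul (T0.var 1))))).s1).of_iff fun w => ?_
  change w 0 / w 1 = w 2 ↔ _
  rcases Nat.eq_zero_or_pos (w 1) with h | h
  · rw [h, Nat.div_zero]
    simp
    exact eq_comm
  · have h' : w 1 ≠ 0 := by omega
    rw [Nat.div_eq_iff h]
    simp only [h', false_and, h, true_and, false_or]
    have h1 : (w 2 + 1) * w 1 = w 2 * w 1 + w 1 := by ring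
    rw [h1]
    omega

theorem CF.mod {n : ℕ} {F G : (Fin n → ℕ) → ℕ} (hF : CF F) (hG : CF G) :
    CF (fun v => F v % G v) := by
  refine CF.comp2 (h := fun a b => a % b) ?_ hF hG
  unfold CF
  refine (S1_ex (Q := fun (w : Fin 3 → ℕ) x => w 0 / w 1 = x ∧ w 1 * x + w 2 = w 0)
    (S1.and (D1.eq ((CF.var 0).div (CF.var 1)) (CF.var 3)).pos
      (D0.eq (((T0.var 1).mul (T0.var 3)).add (T0.var 2)) (T0.var 0)).s1)).of_iff fun w => ?_
  change w 0 % w 1 = w 2 ↔ _
  constructor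
  · intro h
    refine ⟨_, rfl, ?_⟩
    have := Nat.div_add_mod (w 0) (w 1)
    omega
  · rintro ⟨x, rfl, h⟩
    have := Nat.div_add_mod (w 0) (w 1)
    omega

theorem CF.sub {n : ℕ} {F G : (Fin n → ℕ) → ℕ} (hF : CF F) (hG : CF G) :
    CF (fun v => F v - G v) := by
  refine CF.comp2 (h := fun a b => a - b) ?_ hF hG
  unfold CF
  refine (S1.or (D0.eq (T0.var 0) ((T0.var 1).add (T0.var 2))).s1
    (D0.and (D0.lt (T0.var 0) (T0.var 1)) (D0.eq (T0.var 2) T0.zero)).s1).of_iff fun w => ?_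
  change w 0 - w 1 = w 2 ↔ (w 0 = w 1 + w 2 ∨ (w 0 < w 1 ∧ w 2 = 0))
  omega

theorem CF.pair {n : ℕ} {F G : (Fin n → ℕ) → ℕ} (hF : CF F) (hG : CF G) :
    CF (fun v => Nat.pair (F v) (G v)) := by
  refine CF.comp2 (h := fun a b => Nat.pair a b) ?_ hF hG
  unfold CF
  exact (D0.pair (T0.var 0) (T0.var 1) (T0.var 2)).s1

theorem CF.beta {n : ℕ} {F G : (Fin n → ℕ) → ℕ} (hF : CF F) (hG : CF G) :
    CF (fun v => Nat.beta (F v) (G v)) := by
  refine CF.comp2 (h := fun a b => Nat.beta a b) ?_ hF hG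
  unfold CF
  exact (D0.beta (T0.var 0) (T0.var 1) (T0.var 2)).s1

/-- primitive recursion -/
theorem CF.rec {n : ℕ} {A : (Fin n → ℕ) → ℕ} {B : (Fin n → ℕ) → ℕ → ℕ → ℕ}
    {R : (Fin n → ℕ) → ℕ → ℕ} (hA : CF A)
    (hB : CF (fun w : Fin (n + 2) → ℕ => B (Fin.init (Fin.init w)) (w (Fin.last n).castSucc)
      (w (Fin.last (n + 1)))))
    (h0 : ∀ v, R v 0 = A v) (h1 : ∀ v m, R v (m + 1) = B v m (R v m)) :
    CF (fun w : Fin (n + 1) → ℕ => R (Fin.init w) (w (Fin.last n))) := by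
  have key : ∀ v m y, R v m = y ↔ ∃ s, Nat.beta s 0 = A v ∧ (∀ i, i < m →
      Nat.beta s (i + 1) = B v i (Nat.beta s i)) ∧ Nat.beta s m = y := by
    intro v m y
    constructor
    · rintro rfl
      obtain ⟨s, hs⟩ := beta_exists (fun i => R v i) m
      refine ⟨s, ?_, fun i hi => ?_, hs m le_rfl⟩
      · rw [hs 0 (Nat.zero_le _), h0]
      · rw [hs (i + 1) (by omega), hs i (by omega), h1]
    · rintro ⟨s, hs0, hs1, hs2⟩
      have : ∀ i, i ≤ m → Nat.beta s i = R v i := by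
        intro i
        induction i with
        | zero => intro _; rw [hs0, h0]
        | succ i ih =>
          intro hi
          rw [hs1 i (by omega), ih (by omega), h1]
      rw [← hs2, this m le_rfl]
  unfold CF
  simp only [key]
  refine S1_ex (S1.and ?_ (S1.and ?_ ?_))
  · exact (D1.eq (CF.last.beta (CF.const 0)) hA.init.init.init).pos
  · refine S1_ball CF.last.init.init ?_
    refine (D1.eq (CF.beta (CF.last.init) (CF.last.add (CF.const 1))) ?_).pos
    have := hB.comp (n := n + 1 + 1 + 1 + 1) (F := Fin.snoc (α := fun _ => (Fin (n + 4) → ℕ) → ℕ)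
      (Fin.snoc (α := fun _ => (Fin (n + 4) → ℕ) → ℕ)
        (fun (i : Fin n) (w : Fin (n + 4) → ℕ) => w i.castSucc.castSucc.castSucc.castSucc)
        (fun w => w (Fin.last (n + 3))))
      (fun w => Nat.beta (w (Fin.last (n + 2)).castSucc) (w (Fin.last (n + 3))))) (by
        intro i
        refine Fin.lastCases ?_ (fun i => ?_) i
        · simp only [Fin.snoc_last]
          exact (CF.var _).beta (CF.var _)
        · simp only [Fin.snoc_castSucc]
          refine Fin.lastCases ?_ (fun i => ?_) i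
          · simp only [Fin.snoc_last]
            exact CF.var _
          · simp only [Fin.snoc_castSucc]
            exact CF.var _)
    refine this.of_eq fun w => ?_
    simp only [Fin.snoc_last, Fin.snoc_castSucc, Fin.init_def]
  · exact (D1.eq (CF.last.beta CF.last.init.init) CF.last.init).pos

/-- counting -/
theorem CF.count {n : ℕ} {P : (Fin n → ℕ) → ℕ → Prop} [∀ v, DecidablePred (P v)]
    (hP : D1 (fun w : Fin (n + 1) → ℕ => P (Fin.init w) (w (Fin.last n))))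
    {F : (Fin n → ℕ) → ℕ} (hF : CF F) : CF (fun v => Nat.count (P v) (F v)) := by
  have h1 : CF (fun w : Fin (n + 1) → ℕ => Nat.count (P (Fin.init w)) (w (Fin.last n))) := by
    refine CF.rec (A := fun _ => 0) (B := fun v m r => r + if P v m then 1 else 0)
      (R := fun v m => Nat.count (P v) m) (CF.const 0) ?_ (fun v => rfl) (fun v m => ?_)
    · refine CF.add CF.last (CF.ite ?_ (CF.const 1) (CF.const 0))
      have := hP.sub (n := n + 2) (F := fun i w => w i.castSucc) (fun i => CF.var _)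
      refine this.of_iff fun w => ?_
      rfl
    · exact Nat.count_succ _ _
  have h2 := h1.comp (n := n) (F := Fin.snoc (α := fun _ => (Fin n → ℕ) → ℕ)
    (fun (i : Fin n) (v : Fin n → ℕ) => v i) F) (by
      intro i
      refine Fin.lastCases ?_ (fun i => ?_) i
      · simp only [Fin.snoc_last]; exact hF
      · simp only [Fin.snoc_castSucc]; exact CF.var _)
  refine h2.of_eq fun v => ?_
  simp [Fin.init_def]

end Pool.Agent.Helper626.Rand
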