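import Pool.Agent.Helper626.Rand.Solovay

/-!
Computable approximations of left-c.e. reals.
-/

namespace Pool.Agent.Helper626.Rand

open Pool.Agent.Helper626 MeasureTheory

theorem CF.findGreatest {n : ℕ} {P : (Fin n → ℕ) → ℕ → Prop} [∀ v, DecidablePred (P v)]
    (hP : D1 (fun w : Fin (n + 1) → ℕ => P (Fin.init w) (w (Fin.last n))))
    {F : (Fin n → ℕ) → ℕ} (hF : CF F) : CF (fun v => Nat.findGreatest (P v) (F v)) := by
  refine CF.of_D1 ?_
  have h1 : D1 (fun w : Fin (n + 1) → ℕ => w (Fin.last n) ≤ F (Fin.init w) ∧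
      (w (Fin.last n) ≠ 0 → P (Fin.init w) (w (Fin.last n))) ∧
      ∀ m, m < F (Fin.init w) + 1 → (w (Fin.last n) < m → ¬ P (Fin.init w) m)) := by
    refine (D1.le CF.last hF.init).and (((D1.eq CF.last (CF.const 0)).not.imp hP).and
      (D1.ball (hF.init.add (CF.const 1)) ((D1.lt CF.last.init CF.last).imp (D1.not ?_))))
    have := hP.sub (n := n + 1 + 1) (F := Fin.snoc (α := fun _ => (Fin (n + 1 + 1) → ℕ) → ℕ)
      (fun (i : Fin n) (w : Fin (n + 1 + 1) → ℕ) => w i.castSucc.castSucc)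
      (fun w => w (Fin.last (n + 1)))) (by
        intro i
        refine Fin.lastCases ?_ (fun i => ?_) i
        · simp only [Fin.snoc_last]; exact CF.var _
        · simp only [Fin.snoc_castSucc]; exact CF.var _)
    refine this.of_iff fun w => ?_
    simp [Fin.init_def]
  refine h1.of_iff fun w => ?_
  rw [Nat.findGreatest_eq_iff]
  constructor
  · rintro ⟨h2, h3, h4⟩
    exact ⟨h2, h3, fun m hm hm' => h4 hm' (by omega)⟩
  · rintro ⟨h2, h3, h4⟩
    exact ⟨h2, h3, fun m hm hm' => h4 m (by omega) hm⟩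

theorem LeftCE.stage {x : ℝ} (h : LeftCE x) : ∃ L : ℕ → ℕ → ℕ → Prop,
    D1 (fun v : Fin 3 → ℕ => L (v 0) (v 1) (v 2)) ∧
      ∀ p q : ℕ, (p : ℝ) / ((q : ℝ) + 1) < x ↔ ∃ z, L p q z := by
  obtain ⟨R, hR, h1⟩ := S1_of_repred2 (Q := fun p q => (p : ℝ) / ((q : ℝ) + 1) < x) h
  refine ⟨fun p q z => R (Fin.snoc ![p, q] z), ?_, fun p q => ?_⟩
  · refine (D1.of_D0 hR).of_iff fun v => ?_
    have : (Fin.snoc ![v 0, v 1] (v 2) : Fin 3 → ℕ) = v := by
      funext i
      fin_cases i <;> rfl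
    change R (Fin.snoc ![v 0, v 1] (v 2) : Fin 3 → ℕ) ↔ R v
    rw [this]
  · exact h1 ![p, q]

/-- stage approximation -/
def reach (L : ℕ → ℕ → ℕ → Prop) (n t k : ℕ) : Prop :=
  ∃ p, p < t ∧ ∃ q, q < t ∧ ∃ z, z < t ∧ L p q z ∧ k * (q + 1) ≤ 2 ^ n * p

open Classical in
/-- stage approximation of the prefix -/
noncomputable def stg (L : ℕ → ℕ → ℕ → Prop) (n t : ℕ) : ℕ := Nat.findGreatest (reach L n t) (2 ^ n)

theorem stg_CF {L : ℕ → ℕ → ℕ → Prop} (hL : D1 (fun v : Fin 3 → ℕ => L (v 0) (v 1) (v 2))) :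
    CF (fun v : Fin 2 → ℕ => stg L (v 0) (v 1)) := by
  classical
  refine CF.findGreatest (P := fun (v : Fin 2 → ℕ) k => reach L (v 0) (v 1) k) ?_
    ((CF.const 2).pow (CF.var 0))
  unfold reach
  refine D1.bex (CF.var 1).init (D1.bex (CF.var 1).init.init (D1.bex (CF.var 1).init.init.init ?_))
  refine D1.and ?_ ?_
  · exact D1.rel3 hL CF.last.init.init CF.last.init CF.last
  · exact D1.le (CF.last.init.init.init.mul (CF.last.init.add (CF.const 1)))
      (((CF.const 2).pow (CF.var 0).init.init.init.init).mul CF.last.init.init)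

theorem exists_traj {x : ℝ} (hx0 : 0 ≤ x) (hx1 : x < 1) (hr : MLRandom x) (h : LeftCE x) :
    ∃ K : ℕ → ℕ → ℕ, CF (fun v : Fin 2 → ℕ => K (v 0) (v 1)) ∧ (∀ n, Monotone (K n)) ∧
      (∀ n t, K n t = K (n + 1) t / 2) ∧ (∀ n t, K n t ≤ pre x n) ∧
      ∀ n, ∃ t0, ∀ t, t0 ≤ t → K n t = pre x n := by
  classical
  obtain ⟨L, hL, hLx⟩ := h.stage
  have hle : ∀ n t, stg L n t ≤ pre x n := by
    intro n t
    by_cases h0 : stg L n t = 0
    · rw [h0]
      exact Nat.zero_le _
    · have h1 : reach L n t (stg L n t) := Nat.findGreatest_of_ne_zero rfl h0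
      obtain ⟨p, _, q, _, z, _, h2, h3⟩ := h1
      have h4 := (hLx p q).2 ⟨z, h2⟩
      unfold pre
      refine Nat.le_floor ?_
      have h5 : ((stg L n t * (q + 1) : ℕ) : ℝ) ≤ ((2 ^ n * p : ℕ) : ℝ) := by exact_mod_cast h3
      push_cast at h5
      rw [div_lt_iff₀ (by positivity)] at h4
      have h6 : (0 : ℝ) < 2 ^ n := by positivity
      have h7 : (2 : ℝ) ^ n * p < 2 ^ n * (x * (q + 1)) := mul_lt_mul_of_pos_left h4 h6
      have h8 : (stg L n t : ℝ) * (q + 1) < (2 ^ n * x) * (q + 1) := by linarith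
      exact (lt_of_mul_lt_mul_right h8 (by positivity)).le
  have hmono : ∀ n, Monotone (stg L n) := by
    intro n t t' htt
    by_cases h0 : stg L n t = 0
    · rw [h0]
      exact Nat.zero_le _
    · have h1 : reach L n t (stg L n t) := Nat.findGreatest_of_ne_zero rfl h0
      refine Nat.le_findGreatest (Nat.findGreatest_le _) ?_
      obtain ⟨p, hp, q, hq, z, hz, h2, h3⟩ := h1
      exact ⟨p, by omega, q, by omega, z, by omega, h2, h3⟩
  refine ⟨stg L, stg_CF hL, hmono, ?_, hle, ?_⟩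
  · intro n t
    apply le_antisymm
    · by_cases h0 : stg L n t = 0
      · rw [h0]
        exact Nat.zero_le _
      · have h1 : reach L n t (stg L n t) := Nat.findGreatest_of_ne_zero rfl h0
        rw [Nat.le_div_iff_mul_le (by norm_num)]
        refine Nat.le_findGreatest ?_ ?_
        · have h2 : stg L n t ≤ 2 ^ n := Nat.findGreatest_le _
          rw [pow_succ]
          omega
        · obtain ⟨p, hp, q, hq, z, hz, h2, h3⟩ := h1
          refine ⟨p, hp, q, hq, z, hz, h2, ?_⟩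
          rw [pow_succ]
          nlinarith
    · by_cases h0 : stg L (n + 1) t / 2 = 0
      · rw [h0]
        exact Nat.zero_le _
      · have h0' : stg L (n + 1) t ≠ 0 := by
          intro h
          rw [h] at h0
          exact h0 rfl
        have h1 : reach L (n + 1) t (stg L (n + 1) t) := Nat.findGreatest_of_ne_zero rfl h0'
        refine Nat.le_findGreatest ?_ ?_
        · have h2 : stg L (n + 1) t ≤ 2 ^ (n + 1) := Nat.findGreatest_le _
          rw [pow_succ] at h2
          omega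
        · obtain ⟨p, hp, q, hq, z, hz, h2, h3⟩ := h1
          refine ⟨p, hp, q, hq, z, hz, h2, ?_⟩
          rw [pow_succ] at h3
          have h4 : stg L (n + 1) t / 2 * 2 ≤ stg L (n + 1) t := Nat.div_mul_le_self _ _
          have h5 : stg L (n + 1) t / 2 * 2 * (q + 1) ≤ stg L (n + 1) t * (q + 1) :=
            Nat.mul_le_mul_right _ h4
          nlinarith
  · intro n
    have h1 : (pre x n : ℝ) / (((2 ^ n - 1 : ℕ) : ℝ) + 1) < x := by
      have h2 : (((2 ^ n - 1 : ℕ) : ℝ) + 1) = 2 ^ n := by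
        rw [Nat.cast_sub Nat.one_le_two_pow]
        push_cast
        ring
      rw [h2]
      refine lt_of_le_of_ne ?_ (hr.ne_dyadic n (pre x n)).symm
      rw [div_le_iff₀ (by positivity)]
      unfold pre
      have := Nat.floor_le (show 0 ≤ 2 ^ n * x by positivity)
      linarith
    obtain ⟨z, hz⟩ := (hLx _ _).1 h1
    refine ⟨pre x n + 2 ^ n + z + 1, fun t ht => le_antisymm (hle n t) ?_⟩
    refine Nat.le_findGreatest (pre_lt hx1 n).le ?_
    have h4 : ∀ c, 0 < c → pre x n + c + z + 1 ≤ t → (pre x n < t ∧ c - 1 < t ∧ z < t) := by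
      intro c
      omega
    obtain ⟨h5, h6, h7⟩ := h4 (2 ^ n) (by positivity) ht
    refine ⟨pre x n, h5, 2 ^ n - 1, h6, z, h7, hz, ?_⟩
    have h3 : 2 ^ n - 1 + 1 = 2 ^ n := Nat.sub_add_cancel Nat.one_le_two_pow
    rw [h3, Nat.mul_comm]

end Pool.Agent.Helper626.Rand
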